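import Pool.Agent.Lib_helper76.UEN.D

/-!
# The exceptional triples for the orders 9, 10 and 12
-/

set_option autoImplicit false

namespace Pool.Agent.UEN

/-- the exceptional triples for order 9 -/
def Ex9 (A B C : ZMod 9 → ℤ) : Prop :=
  (A = (![0, 0, 0, 0, 0, 0, 3, 0, 0] : Fin 9 → ℤ) ∧ B = (![0, 0, 0, 3, 0, 0, 0, 0, 0] : Fin 9 → ℤ) ∧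
    C = (![3, 0, 0, 0, 0, 0, 0, 0, 0] : Fin 9 → ℤ)) ∨
  (A = (![0, 0, 3, 0, 0, 3, 0, 0, 3] : Fin 9 → ℤ) ∧ B = (![0, 3, 0, 0, 3, 0, 0, 3, 0] : Fin 9 → ℤ) ∧
    C = (![3, 0, 0, 3, 0, 0, 3, 0, 0] : Fin 9 → ℤ))

/-- the exceptional triples for order 10 -/
def Ex10 (A B C : ZMod 10 → ℤ) : Prop :=
  (A = (![0, 0, 2, 0, 0, 0, 0, 2, 0, 0] : Fin 10 → ℤ) ∧ B = (![0, 1, 0, 1, 0, 0, 1, 0, 1, 0] : Fin 10 → ℤ) ∧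
    C = (![1, 0, 0, 0, 1, 1, 0, 0, 0, 1] : Fin 10 → ℤ)) ∨
  (A = (![0, 0, 4, 0, 0, 0, 0, 4, 0, 0] : Fin 10 → ℤ) ∧ B = (![0, 2, 0, 2, 0, 0, 2, 0, 2, 0] : Fin 10 → ℤ) ∧
    C = (![2, 0, 0, 0, 2, 2, 0, 0, 0, 2] : Fin 10 → ℤ))

/-- the exceptional triples for order 12 -/
def Ex12 (A B C : ZMod 12 → ℤ) : Prop :=
  (A = (![0, 0, 0, 0, 0, 0, 0, 0, 3, 0, 0, 0] : Fin 12 → ℤ) ∧ B = (![0, 0, 0, 0, 3, 0, 0, 0, 0, 0, 0, 0] : Fin 12 → ℤ) ∧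
    C = (![3, 0, 0, 0, 0, 0, 0, 0, 0, 0, 0, 0] : Fin 12 → ℤ)) ∨
  (A = (![0, 0, 0, 0, 2, 0, 0, 0, 0, 0, 1, 0] : Fin 12 → ℤ) ∧ B = (![0, 0, 1, 0, 0, 0, 0, 0, 2, 0, 0, 0] : Fin 12 → ℤ) ∧
    C = (![2, 0, 0, 0, 0, 0, 1, 0, 0, 0, 0, 0] : Fin 12 → ℤ)) ∨
  (A = (![0, 0, 0, 0, 3, 0, 0, 0, 0, 0, 0, 0] : Fin 12 → ℤ) ∧ B = (![0, 0, 2, 0, 0, 0, 0, 0, 1, 0, 0, 0] : Fin 12 → ℤ) ∧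
    C = (![3, 0, 0, 0, 0, 0, 0, 0, 0, 0, 0, 0] : Fin 12 → ℤ)) ∨
  (A = (![0, 0, 0, 2, 0, 0, 0, 0, 0, 2, 0, 0] : Fin 12 → ℤ) ∧ B = (![0, 1, 0, 0, 0, 1, 0, 1, 0, 0, 0, 1] : Fin 12 → ℤ) ∧
    C = (![2, 0, 0, 0, 0, 0, 2, 0, 0, 0, 0, 0] : Fin 12 → ℤ)) ∨
  (A = (![0, 0, 1, 1, 0, 0, 0, 0, 1, 1, 0, 0] : Fin 12 → ℤ) ∧ B = (![0, 1, 0, 0, 1, 0, 0, 1, 0, 0, 1, 0] : Fin 12 → ℤ) ∧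
    C = (![1, 0, 0, 0, 0, 1, 1, 0, 0, 0, 0, 1] : Fin 12 → ℤ)) ∨
  (A = (![0, 0, 2, 0, 0, 0, 0, 0, 2, 0, 0, 0] : Fin 12 → ℤ) ∧ B = (![0, 1, 0, 1, 0, 0, 0, 1, 0, 1, 0, 0] : Fin 12 → ℤ) ∧
    C = (![1, 0, 0, 0, 1, 0, 1, 0, 0, 0, 1, 0] : Fin 12 → ℤ)) ∨
  (A = (![0, 0, 0, 0, 3, 0, 0, 0, 0, 0, 3, 0] : Fin 12 → ℤ) ∧ B = (![0, 0, 3, 0, 0, 0, 0, 0, 3, 0, 0, 0] : Fin 12 → ℤ) ∧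
    C = (![3, 0, 0, 0, 0, 0, 3, 0, 0, 0, 0, 0] : Fin 12 → ℤ)) ∨
  (A = (![0, 0, 0, 0, 4, 0, 0, 0, 0, 0, 2, 0] : Fin 12 → ℤ) ∧ B = (![0, 0, 2, 0, 0, 0, 0, 0, 4, 0, 0, 0] : Fin 12 → ℤ) ∧
    C = (![4, 0, 0, 0, 0, 0, 2, 0, 0, 0, 0, 0] : Fin 12 → ℤ)) ∨
  (A = (![0, 0, 0, 0, 5, 0, 0, 0, 0, 0, 1, 0] : Fin 12 → ℤ) ∧ B = (![0, 0, 1, 0, 0, 0, 0, 0, 5, 0, 0, 0] : Fin 12 → ℤ) ∧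
    C = (![5, 0, 0, 0, 0, 0, 1, 0, 0, 0, 0, 0] : Fin 12 → ℤ)) ∨
  (A = (![0, 0, 2, 0, 0, 0, 2, 0, 0, 0, 2, 0] : Fin 12 → ℤ) ∧ B = (![0, 1, 0, 1, 0, 1, 0, 1, 0, 1, 0, 1] : Fin 12 → ℤ) ∧
    C = (![2, 0, 0, 0, 2, 0, 0, 0, 2, 0, 0, 0] : Fin 12 → ℤ)) ∨
  (A = (![0, 0, 2, 0, 0, 1, 0, 0, 2, 0, 0, 1] : Fin 12 → ℤ) ∧ B = (![0, 1, 0, 0, 2, 0, 0, 1, 0, 0, 2, 0] : Fin 12 → ℤ) ∧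
    C = (![2, 0, 0, 1, 0, 0, 2, 0, 0, 1, 0, 0] : Fin 12 → ℤ)) ∨
  (A = (![0, 0, 3, 0, 0, 0, 0, 0, 3, 0, 0, 0] : Fin 12 → ℤ) ∧ B = (![0, 2, 0, 0, 1, 0, 0, 2, 0, 0, 1, 0] : Fin 12 → ℤ) ∧
    C = (![3, 0, 0, 0, 0, 0, 3, 0, 0, 0, 0, 0] : Fin 12 → ℤ)) ∨
  (A = (![0, 0, 0, 4, 0, 0, 0, 0, 0, 4, 0, 0] : Fin 12 → ℤ) ∧ B = (![0, 2, 0, 0, 0, 2, 0, 2, 0, 0, 0, 2] : Fin 12 → ℤ) ∧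
    C = (![4, 0, 0, 0, 0, 0, 4, 0, 0, 0, 0, 0] : Fin 12 → ℤ)) ∨
  (A = (![0, 0, 2, 2, 0, 0, 0, 0, 2, 2, 0, 0] : Fin 12 → ℤ) ∧ B = (![0, 2, 0, 0, 2, 0, 0, 2, 0, 0, 2, 0] : Fin 12 → ℤ) ∧
    C = (![2, 0, 0, 0, 0, 2, 2, 0, 0, 0, 0, 2] : Fin 12 → ℤ)) ∨
  (A = (![0, 0, 4, 0, 0, 0, 0, 0, 4, 0, 0, 0] : Fin 12 → ℤ) ∧ B = (![0, 2, 0, 2, 0, 0, 0, 2, 0, 2, 0, 0] : Fin 12 → ℤ) ∧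
    C = (![2, 0, 0, 0, 2, 0, 2, 0, 0, 0, 2, 0] : Fin 12 → ℤ)) ∨
  (A = (![0, 0, 3, 0, 0, 3, 0, 0, 3, 0, 0, 3] : Fin 12 → ℤ) ∧ B = (![0, 3, 0, 0, 3, 0, 0, 3, 0, 0, 3, 0] : Fin 12 → ℤ) ∧
    C = (![3, 0, 0, 3, 0, 0, 3, 0, 0, 3, 0, 0] : Fin 12 → ℤ)) ∨
  (A = (![0, 0, 3, 3, 0, 0, 0, 0, 3, 3, 0, 0] : Fin 12 → ℤ) ∧ B = (![0, 3, 0, 0, 3, 0, 0, 3, 0, 0, 3, 0] : Fin 12 → ℤ) ∧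
    C = (![3, 0, 0, 0, 0, 3, 3, 0, 0, 0, 0, 3] : Fin 12 → ℤ)) ∨
  (A = (![0, 0, 4, 0, 0, 0, 4, 0, 0, 0, 4, 0] : Fin 12 → ℤ) ∧ B = (![0, 2, 0, 2, 0, 2, 0, 2, 0, 2, 0, 2] : Fin 12 → ℤ) ∧
    C = (![4, 0, 0, 0, 4, 0, 0, 0, 4, 0, 0, 0] : Fin 12 → ℤ)) ∨
  (A = (![0, 0, 4, 0, 0, 2, 0, 0, 4, 0, 0, 2] : Fin 12 → ℤ) ∧ B = (![0, 2, 0, 0, 4, 0, 0, 2, 0, 0, 4, 0] : Fin 12 → ℤ) ∧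
    C = (![4, 0, 0, 2, 0, 0, 4, 0, 0, 2, 0, 0] : Fin 12 → ℤ)) ∨
  (A = (![0, 0, 5, 0, 0, 1, 0, 0, 5, 0, 0, 1] : Fin 12 → ℤ) ∧ B = (![0, 1, 0, 0, 5, 0, 0, 1, 0, 0, 5, 0] : Fin 12 → ℤ) ∧
    C = (![5, 0, 0, 1, 0, 0, 5, 0, 0, 1, 0, 0] : Fin 12 → ℤ))

end Pool.Agent.UEN
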