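import Pool.Agent.Lib_helper76.UEN.E
import Pool.Agent.Lib_helper76.UE8.P10

/-!
# The classes of a certificate and the divisors
-/

set_option autoImplicit false
set_option linter.unusedSectionVars false

open scoped TensorProduct

namespace Pool.Agent.UEN

open WeierstrassCurve.Affine Polynomial WithZero GK UP
open UEG (Gen IsUn LineOK P0 negY_wt)
open TN (Wt Orb)
open MK4 (FT lg)
open FK4 (LineS Supp supp_iff)
open KC72
open UE8 (orb_sub orb_inv)

section tables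

variable {n₀ : ℕ}

/-- the divisor of a monomial -/
def dvl : List (ZMod n₀ → ℤ) → List ℤ → ZMod n₀ → ℤ
  | d :: ds, e :: es, x => e * d x + dvl ds es x
  | _, _, _ => 0

/-- a digit -/
def dg (n : ℕ) (x : ZMod n₀) : ℤ := ((n / 16 ^ x.val % 16 : ℕ) : ℤ)

/-- the code of an orbit -/
def cdn (n₀ S p : ℕ) : ℕ := 16 ^ p + 16 ^ ((S + n₀ - p) % n₀)

/-- one of the six orders -/
def pm (a b c D E G : ℕ) : Bool := (D == a && E == b && G == c) || (D == a && G == b && E == c) ||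
  (E == a && D == b && G == c) || (E == a && G == b && D == c) || (G == a && D == b && E == c) ||
  (G == a && E == b && D == c)

/-- different orbits -/
def nd (n₀ S p q r : ℕ) : Bool := p != q && p != (S + n₀ - q) % n₀ && q != r &&
  q != (S + n₀ - r) % n₀ && p != r && p != (S + n₀ - r) % n₀

/-- all pencils are in the table -/
def srch (n₀ : ℕ) (T : ℕ → List (ℕ × ℕ × ℕ × ℕ)) : Bool :=
  (List.range n₀).all fun S => (List.range n₀).all fun p => (List.range n₀).all fun q =>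
    (List.range n₀).all fun r => !(nd n₀ S p q r) ||
      (T S).any fun t => pm t.2.1 t.2.2.1 t.2.2.2 (cdn n₀ S p) (cdn n₀ S r) (cdn n₀ S q)

variable (ds : List (ZMod n₀ → ℤ)) (cls : List (Mo × Mo))

/-- a row of the table is correct -/
abbrev RowOK (t : ℕ × ℕ × ℕ × ℕ) : Prop := t.1 < cls.length ∧
  (∀ x : ZMod n₀, dvl ds (cls.getD t.1 default).1.2 x = dg t.2.1 x - dg t.2.2.2 x) ∧
  (∀ x : ZMod n₀, dvl ds (cls.getD t.1 default).2.2 x = dg t.2.2.1 x - dg t.2.2.2 x) ∧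
  ∃ x : ZMod n₀, dg t.2.1 x - dg t.2.2.2 x ≠ 0

/-- the divisors belong to a class of the table -/
def Mat (D E G : ZMod n₀ → ℤ) : Prop := ∃ c ∈ cls, (∃ x, dvl ds c.1.2 x ≠ 0) ∧
  Six (fun A B C => (∀ x, A x - C x = dvl ds c.1.2 x) ∧ (∀ x, B x - C x = dvl ds c.2.2 x)) D E G

variable {ds cls}

lemma mat_of {T : List (ℕ × ℕ × ℕ × ℕ)} (hT : ∀ t ∈ T, RowOK ds cls t) {D E G : ZMod n₀ → ℤ}
    {d e g : ℕ} (hD : ∀ x, D x = dg d x) (hE : ∀ x, E x = dg e x)
    (hG : ∀ x, G x = dg g x) (h : (T.any fun t => pm t.2.1 t.2.2.1 t.2.2.2 d e g) = true) :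
    Mat ds cls D E G := by
  rw [List.any_eq_true] at h
  obtain ⟨t, ht, h⟩ := h
  obtain ⟨h1, h2, h3, h4⟩ := hT t ht
  refine ⟨cls.getD t.1 default, by
    rw [List.getD_eq_getElem?_getD, List.getElem?_eq_getElem h1, Option.getD_some]
    exact List.getElem_mem h1, ?_, ?_⟩
  · obtain ⟨x, hx⟩ := h4
    exact ⟨x, by rw [h2]; exact hx⟩
  unfold pm at h
  simp only [Bool.or_eq_true, Bool.and_eq_true, beq_iff_eq] at h
  rcases h with ((((⟨⟨r1, r2⟩, r3⟩ | ⟨⟨r1, r2⟩, r3⟩) | ⟨⟨r1, r2⟩, r3⟩) | ⟨⟨r1, r2⟩, r3⟩) |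
    ⟨⟨r1, r2⟩, r3⟩) | ⟨⟨r1, r2⟩, r3⟩
  · exact Or.inl ⟨fun x => by rw [h2, hD, hG, r1, r3], fun x => by rw [h3, hE, hG, r2, r3]⟩
  · exact Or.inr (Or.inl ⟨fun x => by rw [h2, hD, hE, r1, r3], fun x => by rw [h3, hG, hE, r2, r3]⟩)
  · exact Or.inr (Or.inr (Or.inl ⟨fun x => by rw [h2, hE, hG, r1, r3],
      fun x => by rw [h3, hD, hG, r2, r3]⟩))
  · exact Or.inr (Or.inr (Or.inr (Or.inl ⟨fun x => by rw [h2, hE, hD, r1, r3],
      fun x => by rw [h3, hG, hD, r2, r3]⟩)))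
  · exact Or.inr (Or.inr (Or.inr (Or.inr (Or.inl ⟨fun x => by rw [h2, hG, hE, r1, r3],
      fun x => by rw [h3, hD, hE, r2, r3]⟩))))
  · exact Or.inr (Or.inr (Or.inr (Or.inr (Or.inr ⟨fun x => by rw [h2, hG, hD, r1, r3],
      fun x => by rw [h3, hE, hD, r2, r3]⟩))))

lemma mat_nd [NeZero n₀] {T : ℕ → List (ℕ × ℕ × ℕ × ℕ)}
    (hT : ∀ S < n₀, ∀ t ∈ T S, RowOK ds cls t) (hs : srch n₀ T = true)
    (hmz : ∀ S p x : ZMod n₀, mz S p x = dg (cdn n₀ S.val p.val) x)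
    (hsub : ∀ S p q : ZMod n₀, p = S - q ↔ p.val = (S.val + n₀ - q.val) % n₀)
    {S p q r : ZMod n₀} (h : Nd S p q r) : Mat ds cls (mz S p) (mz S r) (mz S q) := by
  refine mat_of (hT S.val (ZMod.val_lt S)) (fun x => hmz _ _ _) (fun x => hmz _ _ _)
    (fun x => hmz _ _ _) ?_
  have hm : ∀ a : ZMod n₀, a.val ∈ List.range n₀ := fun a => List.mem_range.mpr (ZMod.val_lt a)
  have hn : nd n₀ S.val p.val q.val r.val = true := by
    obtain ⟨h1, h2, h3, h4, h5, h6⟩ := h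
    have inj : ∀ {a b : ZMod n₀}, a ≠ b → a.val ≠ b.val := fun h h' => h (ZMod.val_injective _ h')
    unfold nd
    simp only [Bool.and_eq_true, bne_iff_ne]
    exact ⟨⟨⟨⟨⟨inj h1, fun h => h2 ((hsub _ _ _).mpr h)⟩, inj h3⟩,
      fun h => h4 ((hsub _ _ _).mpr h)⟩, inj h5⟩, fun h => h6 ((hsub _ _ _).mpr h)⟩
  unfold srch at hs
  rw [List.all_eq_true] at hs
  have h2 := hs _ (hm S)
  rw [List.all_eq_true] at h2
  have h3 := h2 _ (hm p)
  rw [List.all_eq_true] at h3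
  have h4 := h3 _ (hm q)
  rw [List.all_eq_true] at h4
  have h5 := h4 _ (hm r)
  rw [hn, Bool.not_true, Bool.false_or] at h5
  exact h5

end tables

section general

variable {n₀ : ℕ} [NeZero n₀]
variable {k : Type*} [Field k] [DecidableEq k] [CharZero k] {W : WeierstrassCurve.Affine k}
  {F : Type*} [Field F] [DecidableEq F] [Algebra k F] {X Y : F} {P : W.Point}
  {hO : addOrderOf P = n₀}
  [Fintype (AddSubgroup.zmultiples P)] [DecidableEq (AddSubgroup.zmultiples P)]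
  {hg : Gen W X Y}

lemma pq_evl {g : List F} {ds : List (ZMod n₀ → ℤ)}
    (h : List.Forall₂ (fun f d => PQ hO hg f d) g ds) (e : List ℤ) :
    PQ hO hg (evl g e) (dvl ds e) := by
  induction h generalizing e with
  | nil =>
    rw [evl_nil_left]
    refine (PQ.one hg).congr fun x => ?_
    cases e <;> rfl
  | cons h1 _ ih =>
    cases e with
    | nil =>
      rw [evl_nil_right]
      exact (PQ.one hg).congr fun x => rfl
    | cons n es =>
      rw [evl_cons]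
      exact ((h1.zpow n).mul (ih es)).congr fun x => rfl

lemma pq_ne {g : List F} {ds : List (ZMod n₀ → ℤ)}
    (h : List.Forall₂ (fun f d => PQ hO hg f d) g ds) : ∀ z ∈ g, z ≠ 0 := by
  induction h with
  | nil => simp
  | cons h1 _ ih =>
    intro z hz
    rcases List.mem_cons.mp hz with rfl | hz
    · exact h1.1.1
    · exact ih z hz

lemma pq_ev {g : List F} {ds : List (ZMod n₀ → ℤ)}
    (h : List.Forall₂ (fun f d => PQ hO hg f d) g ds) (a : Mo) :
    PQ hO hg (ev g a) (dvl ds a.2) := by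
  unfold ev
  rcases a with ⟨_ | _, a⟩
  · rw [cond_false, one_mul]; exact pq_evl h a
  · rw [cond_true, neg_one_mul]; exact (pq_evl h a).neg

/-- the orbits of the classes -/
def RL (g : List F) (cls : List (Mo × Mo)) (f : F) : Prop := ∃ c ∈ cls, Orb (ev g c.1) f

variable {g : List F} {ds : List (ZMod n₀ → ℤ)} {cls : List (Mo × Mo)}

lemma ev_ne01 (h : List.Forall₂ (fun f d => PQ hO hg f d) g ds) (hS : Sols g cls) {c : Mo × Mo}
    (hc : c ∈ cls) : ev g c.1 ≠ 0 ∧ ev g c.1 - 1 ≠ 0 ∧ 1 - ev g c.1 = ev g c.2 := by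
  have h1 := hS c hc
  have h2 := ev_ne (pq_ne h) c.2
  refine ⟨ev_ne (pq_ne h) c.1, fun h3 => h2 ?_, by linear_combination -h1⟩
  linear_combination h1 - h3

lemma rl_sub (h : List.Forall₂ (fun f d => PQ hO hg f d) g ds) (hS : Sols g cls) (f : F)
    (h' : RL g cls (1 - f)) : RL g cls f := by
  obtain ⟨c, hc, h'⟩ := h'
  obtain ⟨h1, h2, -⟩ := ev_ne01 h hS hc
  exact ⟨c, hc, orb_sub h1 h2 h'⟩

lemma rl_inv (h : List.Forall₂ (fun f d => PQ hO hg f d) g ds) (hS : Sols g cls) (f : F)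
    (h' : RL g cls f⁻¹) : RL g cls f := by
  obtain ⟨c, hc, h'⟩ := h'
  obtain ⟨h1, h2, -⟩ := ev_ne01 h hS hc
  exact ⟨c, hc, orb_inv h1 h2 h'⟩

lemma rl_mat (h : List.Forall₂ (fun f d => PQ hO hg f d) g ds) (hS : Sols g cls)
    {f : F} {D E G : ZMod n₀ → ℤ} (hQ : Q3 hO hg f D E G) (hm : Mat ds cls D E G) :
    RL g cls f := by
  obtain ⟨c, hc, ⟨z, hz⟩, ho⟩ := hm
  obtain ⟨f', A, B, C, ⟨hE1, hE2⟩, h', hR⟩ := hQ.six (rl_sub h hS) (rl_inv h hS) ho
  apply hR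
  refine ⟨c, hc, Or.inl ?_⟩
  have p1 := pq_ev h c.1
  have p2 := pq_ev h c.2
  rw [← (ev_ne01 h hS hc).2.2] at p2
  exact (h'.p.congr hE1).eq p1 (h'.q.congr hE2) p2 hz

/-- the unit equation, in terms of a property `R` -/
theorem unitR (hO : addOrderOf P = n₀)
    {Ex : (ZMod n₀ → ℤ) → (ZMod n₀ → ℤ) → (ZMod n₀ → ℤ) → Prop}
    (hM : Main Ex) (hG : IndG (AddSubgroup.zmultiples P) F) (hg : Gen W X Y) {R : F → Prop}
    (hs : ∀ f, R (1 - f) → R f) (hi : ∀ f, R f⁻¹ → R f)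
    (hp : ∀ {f : F} {S p q r : ZMod n₀}, Nd S p q r →
      Q3 hO hg f (mz S p) (mz S r) (mz S q) → R f)
    (hex : ∀ {f : F} {s : ZMod n₀} {A B C : ZMod n₀ → ℤ}, Ex A B C →
      Q3 hO hg f (fun x => A (x - s)) (fun x => B (x - s)) (fun x => C (x - s)) → R f) {f : F}
    (hf : IsUn (AddSubgroup.zmultiples P) X Y f)
    (hf' : IsUn (AddSubgroup.zmultiples P) X Y (1 - f)) :
    (∃ c : k, f = algebraMap k F c) ∨ R f := by
  rcases exists_Q3 (hO := hO) hG hg hf hf' with h | ⟨D, E, G, d, hT, h, h1, h2, h3⟩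
  · exact Or.inl h
  right
  rcases hM hT h1 h2 h3 with ⟨S, p, q, r, n, hn, a1, a2, a3⟩ | ⟨s, ho⟩
  · obtain ⟨h4, h5⟩ := pencilN' hT h hn a1 a2 a3
    exact hp h4 h5
  · obtain ⟨f', A, B, C, hE, h', hR⟩ := h.six hs hi ho
    apply hR
    refine hex (s := s) hE (h'.congr (fun x => ?_) (fun x => ?_) (fun x => ?_))
    all_goals rw [sub_add_cancel]

end general

end Pool.Agent.UEN
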