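import Pool.Agent.Lib_helper76.UE8.P11

/-!
# Supported functions and the substitutions `f ↦ 1 - f`, `f ↦ 1 / f`
-/

set_option autoImplicit false
set_option linter.unusedSectionVars false

namespace Pool.Agent.UEN

open FK4 (Supp S3)

/-- the supported functions are stable under the substitutions -/
lemma supp_s3 {k : Type*} [Field k] [DecidableEq k] {W : WeierstrassCurve.Affine k}
    {F : Type*} [Field F] [Algebra k F] {X Y : F} {H : AddSubgroup W.Point}
    {u : F} (v1 : Supp H X Y u) (v2 : Supp H X Y (1 - u)) {f : F} (hf : S3 u f) :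
    Supp H X Y f ∧ Supp H X Y (1 - f) := by
  have n1 := v1.1
  have n2 := v2.1
  have n3 : u - 1 ≠ 0 := by rw [← neg_sub]; exact neg_ne_zero.mpr n2
  have v3 : Supp H X Y (u - 1) := v2.sub_comm
  rcases hf with rfl | rfl | rfl | rfl | rfl | rfl
  · exact ⟨v1, v2⟩
  · exact ⟨v2, by rw [sub_sub_cancel]; exact v1⟩
  · have e : 1 - 1 / u = (u - 1) / u := by field_simp
    rw [e]
    exact ⟨by rw [one_div]; exact v1.inv, v3.div v1⟩
  · have e : 1 - 1 / u = (u - 1) / u := by field_simp
    rw [sub_sub_cancel, e]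
    exact ⟨v3.div v1, by rw [one_div]; exact v1.inv⟩
  · have e : 1 - 1 / (1 - u) = -(u / (1 - u)) := by field_simp; ring
    rw [e]
    exact ⟨by rw [one_div]; exact v2.inv, (v1.div v2).neg⟩
  · have e : 1 - u / (u - 1) = -(u - 1)⁻¹ := by field_simp; ring
    rw [e]
    exact ⟨v1.div v3, v3.inv.neg⟩

end Pool.Agent.UEN
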