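import Pool.Agent.Lib_helper24.FAM.Cl
import Pool.Agent.Lib_helper24.FAM.LC
import Pool.Agent.Lib_helper40.MC.J

/-!
# The closed elements from the unit equation and a modular certificate
-/

set_option autoImplicit false
set_option linter.unusedSectionVars false
set_option linter.unusedVariables false

open scoped TensorProduct WithZero

namespace Pool.Agent.UEN

open Pool.Agent.MK4 WeierstrassCurve.Affine Pool.Agent.KC72 Pool.Agent.MC
open Pool.Agent.FK4

variable {k : Type*} [Field k] [DecidableEq k] {W' : WeierstrassCurve.Affine k} {F : Type*}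
  [Field F] [Algebra k F] {x y : F} {H' : AddSubgroup W'.Point} [CharZero k]

/-- the symbols of the orbits of the classes -/
lemma sy_mem_cls {g : List F} {cls : List (Mo × Mo)} (hg : ∀ z ∈ g, z ≠ 0) (hs : Sols g cls)
    {f : F} (h : (∃ c : k, f = algebraMap k F c) ∨ ∃ p ∈ cls, TN.Orb (ev g p.1) f) :
    sy f ∈ SC k F ⊔ Submodule.span ℚ {a : B2 F | ∃ p ∈ cls, a = sy (ev g p.1)} := by
  have : CharZero F := charZero_of_injective_algebraMap (algebraMap k F).injective
  rcases h with ⟨c, rfl⟩ | ⟨p, hp, h⟩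
  · exact Submodule.mem_sup_left (Submodule.subset_span ⟨c, rfl⟩)
  · apply Submodule.mem_sup_right
    have h1 : ev g p.1 ≠ 1 := by
      intro h'
      have h2 := hs p hp
      have h3 := ev_ne hg p.2
      apply h3
      rw [h'] at h2
      linear_combination h2
    rcases TN.sy_orb h1 h with h2 | h2
    · rw [h2]; exact Submodule.subset_span ⟨p, hp, rfl⟩
    · rw [h2]; exact Submodule.neg_mem _ (Submodule.subset_span ⟨p, hp, rfl⟩)

/-- **only the constants**, from a modular certificate -/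
theorem only_rcertX {R : RCert} (hR : ROk R) {n r : ℕ} (hn : R.n = n) (hr : R.r = r)
    {cls : List (Mo × Mo)} (hcl : sameC R.cls cls = true) {G : Fin n → F}
    (hrn : r ≤ n) (hsupp : ∀ i, Supp H' x y (G i))
    (hk : ∀ i : Fin n, r ≤ i.val → ∃ c : k, G i = algebraMap k F c)
    (hM : ∀ (e : Fin r → ℤ) (c : k), c ≠ 0 →
      ∏ i, G (Fin.castLE hrn i) ^ e i = algebraMap k F c → e = 0)
    (hc : ∀ e : Fin n → ℤ, (∀ i : Fin n, i.val < r → e i = 0) → ∏ i, G i ^ e i = 1 → e = 0)
    (hs : Sols (List.ofFn G) cls)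
    (hU : ∀ f, Supp H' x y f → Supp H' x y (1 - f) → sy f ∈ SC k F ⊔
      Submodule.span ℚ {a : B2 F | ∃ p ∈ cls, a = sy (ev (List.ofFn G) p.1)}) :
    OnlyConst H' x y := by
  intro z hz hcz
  have : CharZero F := charZero_of_injective_algebraMap (algebraMap k F).injective
  have hG : ∀ i, G i ≠ 0 := fun i => (hsupp i).1
  have hI := hI_of (k := k) hrn G hG hk hM
  have hJ := hJ_of (k := k) hrn G hG hI hc
  rw [sp_eq (U := Supp H' x y) (fun f => Iff.rfl)] at hz
  have h := closed_of_rcertP hR hn hr hcl hG hk hI hJ hs (Supp H' x y) hU hz hcz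
  rw [← TN.KC_eq]
  exact h

/-- **only the constants**, from a modular certificate -/
theorem only_rcert {R : RCert} (hR : ROk R) {n r : ℕ} (hn : R.n = n) (hr : R.r = r)
    {cls : List (Mo × Mo)} (hcl : sameC R.cls cls = true) {G : Fin n → F}
    (hrn : r ≤ n) (hsupp : ∀ i, Supp H' x y (G i))
    (hk : ∀ i : Fin n, r ≤ i.val → ∃ c : k, G i = algebraMap k F c)
    (hM : ∀ (e : Fin r → ℤ) (c : k), c ≠ 0 →
      ∏ i, G (Fin.castLE hrn i) ^ e i = algebraMap k F c → e = 0)
    (hc : ∀ e : Fin n → ℤ, (∀ i : Fin n, i.val < r → e i = 0) → ∏ i, G i ^ e i = 1 → e = 0)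
    (hs : Sols (List.ofFn G) cls)
    (hU : ∀ f, Supp H' x y f → Supp H' x y (1 - f) → (∃ c : k, f = algebraMap k F c) ∨
      ∃ p ∈ cls, TN.Orb (ev (List.ofFn G) p.1) f) : OnlyConst H' x y := by
  refine only_rcertX hR hn hr hcl hrn hsupp hk hM hc hs fun f h1 h2 => ?_
  refine sy_mem_cls (fun z hz => ?_) hs (hU f h1 h2)
  rw [List.mem_ofFn] at hz
  obtain ⟨i, rfl⟩ := hz
  exact (hsupp i).1

end Pool.Agent.UEN
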