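import Pool.Agent.Lib_helper76.UEN.A
import Pool.Agent.Lib_helper76.UEG.TAB
import Pool.Agent.Lib_helper76.UE5.U4

/-!
# The divisors of lines
-/

set_option autoImplicit false
set_option linter.unusedSectionVars false

open scoped TensorProduct

namespace Pool.Agent.UEN

open WeierstrassCurve.Affine Polynomial WithZero GK UP
open UEG (Gen IsUn LineOK P0 negY_wt)
open TN (Wt)
open MK4 (FT lg)

section general

variable {k : Type*} [Field k] [DecidableEq k] [CharZero k] {W : WeierstrassCurve.Affine k}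
  {F : Type*} [Field F] [DecidableEq F] [Algebra k F] {X Y X' Y' : F} {P : W.Point}
  {n₀ : ℕ} [NeZero n₀] {hO : addOrderOf P = n₀}
  [Fintype (AddSubgroup.zmultiples P)] [DecidableEq (AddSubgroup.zmultiples P)]
  {hg : Gen W X Y}

lemma PQ.one (hg : Gen W X Y) : PQ hO hg 1 (fun _ => 0) := by
  have := PQ.const (hO := hO) hg (one_ne_zero (α := k))
  rwa [map_one] at this

lemma PQ.pow {f : F} {M : ZMod n₀ → ℤ} (h : PQ hO hg f M) (n : ℕ) :
    PQ hO hg (f ^ n) (fun x => n * M x) := by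
  induction n with
  | zero => rw [pow_zero]; exact (PQ.one hg).congr fun x => by simp
  | succ n ih =>
    rw [pow_succ]
    exact (ih.mul h).congr fun x => by push_cast; ring

lemma PQ.zpow {f : F} {M : ZMod n₀ → ℤ} (h : PQ hO hg f M) (n : ℤ) :
    PQ hO hg (f ^ n) (fun x => n * M x) := by
  obtain ⟨m, rfl | rfl⟩ := Int.eq_nat_or_neg n
  · rw [zpow_natCast]
    exact (h.pow m).congr fun x => by push_cast; ring
  · rw [zpow_neg, zpow_natCast]
    exact (h.pow m).inv.congr fun x => by push_cast; ring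

lemma PQ.prod {ι : Type*} (s : Finset ι) {u : ι → F} {M : ι → ZMod n₀ → ℤ}
    (h : ∀ i, PQ hO hg (u i) (M i)) : PQ hO hg (∏ i ∈ s, u i) (fun x => ∑ i ∈ s, M i x) := by
  classical
  induction s using Finset.induction_on with
  | empty => rw [Finset.prod_empty]; exact (PQ.one hg).congr fun x => by simp
  | insert i s hi ih =>
    rw [Finset.prod_insert hi]
    exact ((h i).mul ih).congr fun x => by rw [Finset.sum_insert hi]

end general

/-- the divisor of a vertical line -/
def dV {n₀ : ℕ} (i x : ZMod n₀) : ℤ := (if x = i then 1 else 0) + (if x = -i then 1 else 0) -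
  2 * (if x = 0 then 1 else 0)

/-- the divisor of a line -/
def dL {n₀ : ℕ} (i j x : ZMod n₀) : ℤ := (if x = i then 1 else 0) + (if x = j then 1 else 0) +
  (if x = -(i + j) then 1 else 0) - 3 * (if x = 0 then 1 else 0)

section

variable {k : Type*} [Field k] [DecidableEq k] [CharZero k] {b c : k}
  {F : Type*} [Field F] [DecidableEq F] [Algebra k F] {x y : F} {P : (Wt b c).Point}
  {n₀ : ℕ} [NeZero n₀] {hO : addOrderOf P = n₀}
  [Fintype (AddSubgroup.zmultiples P)] [DecidableEq (AddSubgroup.zmultiples P)]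
  {hg : Gen (Wt b c) x y}

lemma en_eq {i : ZMod n₀} {Q : (Wt b c).Point} (e : i.val • P = Q)
    (hQ : Q ∈ AddSubgroup.zmultiples P) : (⟨Q, hQ⟩ : AddSubgroup.zmultiples P) = en hO i :=
  Subtype.ext (by rw [en_val]; exact e.symm)

lemma mem_en {i : ZMod n₀} {Q : (Wt b c).Point} (e : i.val • P = Q) :
    Q ∈ AddSubgroup.zmultiples P := by
  rw [← e]; exact AddSubgroup.nsmul_mem_zmultiples _ _

lemma pq_vert (hO : addOrderOf P = n₀) (hg : Gen (Wt b c) x y) {i : ZMod n₀} {a a' : k}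
    (h : ∃ h, i.val • P = .some a a' h) : PQ hO hg (x - algebraMap k F a) (dV i) := by
  obtain ⟨h, e⟩ := h
  have hH := mem_en e
  refine ⟨UEG.isUn_x hg ⟨h, hH⟩, ?_⟩
  have h1 := PU.vert lc_ok hg h hH
  rw [en_eq (hO := hO) e hH] at h1
  have : mV (en hO i) = fun a => dV i ((en hO).symm a) := by
    funext a
    unfold mV dV
    simp only [← map_neg, AddEquiv.symm_apply_eq, map_zero]
  rw [← this]
  exact ⟨_, _, h1⟩

lemma pq_line (hO : addOrderOf P = n₀) (hg : Gen (Wt b c) x y) {i j : ZMod n₀} {x₁ y₁ x₂ y₂ s e : k}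
    (h : ∃ h, i.val • P = .some x₁ y₁ h) (h' : ∃ h, j.val • P = .some x₂ y₂ h)
    (hl : LineOK b c x₁ y₁ x₂ y₂ s e) :
    PQ hO hg (y - (algebraMap k F s * x + algebraMap k F e)) (dL i j) := by
  obtain ⟨h1, e1⟩ := h
  obtain ⟨h2, e2⟩ := h'
  have m1 := mem_en e1
  have m2 := mem_en e2
  have hm : mL (en hO i) (en hO j) = fun a => dL i j ((en hO).symm a) := by
    funext a
    unfold mL dL
    simp only [← map_neg, ← map_add, AddEquiv.symm_apply_eq, map_zero]
  have a1 : (Wt b c).a₁ = 1 - c := rfl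
  have a2 : (Wt b c).a₂ = -b := rfl
  have a4 : (Wt b c).a₄ = 0 := rfl
  refine ⟨UEG.isUn_line hg ⟨h1, m1⟩ ⟨h2, m2⟩ hl, ?_⟩
  rw [← hm]
  obtain ⟨h3, ⟨h4, h5⟩ | ⟨h6', h7', h6, h7⟩⟩ := hl
  · have := PU.line lc_ok hg h1 h2 m1 m2 (fun h' => h4 h'.1)
    rw [en_eq (hO := hO) e1 m1, en_eq (hO := hO) e2 m2] at this
    rw [UEG.io_inc] at this
    have e3 : UEG.homR (algebraMap k F) x y hg.eq (UEG.yR - UEG.iP (UEG.ln (Wt b c) x₁ x₂ y₁ y₂)) =
      UEG.hR hg (UEG.yR - UEG.iP (UEG.ln (Wt b c) x₁ x₂ y₁ y₂)) := rfl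
    rw [e3, UEG.line_val hg h5 h4] at this
    have e4 : y - (algebraMap k F s * (x - algebraMap k F x₁) + algebraMap k F y₁) =
        y - (algebraMap k F s * x + algebraMap k F e) := by
      rw [h3, map_add, map_mul]; ring
    rw [e4] at this
    exact ⟨_, _, this⟩
  · subst h6' h7'
    have h9 : y₁ ≠ (Wt b c).negY x₁ y₁ := by
      rw [negY_wt]
      intro h'
      apply h6
      linear_combination h'
    have := PU.line lc_ok hg h1 h1 m1 m1 (fun h' => h9 h'.2)
    have e5 : (⟨_, m1⟩ : AddSubgroup.zmultiples P) = en hO j := en_eq e2 m1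
    rw [en_eq (hO := hO) e1 m1] at this e5
    nth_rewrite 2 [e5] at this
    rw [UEG.io_inc] at this
    have e3 : UEG.homR (algebraMap k F) x y hg.eq (UEG.yR - UEG.iP (UEG.ln (Wt b c) x₁ x₁ y₁ y₁)) =
      UEG.hR hg (UEG.yR - UEG.iP (UEG.ln (Wt b c) x₁ x₁ y₁ y₁)) := rfl
    rw [e3, UEG.line_val' hg (m := s) (by rw [negY_wt, a1, a2, a4]; linear_combination h7) h9]
      at this
    have e4 : y - (algebraMap k F s * (x - algebraMap k F x₁) + algebraMap k F y₁) =
        y - (algebraMap k F s * x + algebraMap k F e) := by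
      rw [h3, map_add, map_mul]; ring
    rw [e4] at this
    exact ⟨_, _, this⟩

end


end Pool.Agent.UEN
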