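import Pool.Agent.Lib_helper76.UEN.G
import Pool.Agent.Lib_helper76.UEN.B

/-!
# Two curves with functions in the same field
-/

set_option autoImplicit false
set_option linter.unusedSectionVars false

open scoped TensorProduct

namespace Pool.Agent.UEN

open WeierstrassCurve.Affine Polynomial WithZero GK UP
open UEG (Gen IsUn)
open MK4 (FT lg)
open FK4 (LineS Supp supp_iff)

section pr

variable {k : Type*} [Field k] [DecidableEq k] [CharZero k] {W : WeierstrassCurve.Affine k}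
  {F : Type*} [Field F] [DecidableEq F] [Algebra k F] {X Y : F} {P : W.Point} {n₀ : ℕ} [NeZero n₀]
  {hO : addOrderOf P = n₀}
  [Fintype (AddSubgroup.zmultiples P)] [DecidableEq (AddSubgroup.zmultiples P)]
  {hg : Gen W X Y} {f : F} {M : ZMod n₀ → ℤ}

lemma PQ.s0 (h : PQ hO hg f M) : ∑ x, M x = 0 := by
  obtain ⟨-, κ, w, h⟩ := h
  have h1 := h.s0
  rw [← Equiv.sum_comp (en hO).toEquiv] at h1
  simpa using h1

lemma PQ.s1 (h : PQ hO hg f M) : ∑ x, M x • x = 0 := by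
  obtain ⟨-, κ, w, h⟩ := h
  have h1 := h.s1
  rw [← Equiv.sum_comp (en hO).toEquiv] at h1
  have h2 : en hO (∑ x, M x • x) = 0 := by
    rw [map_sum, ← h1]
    refine Finset.sum_congr rfl fun x _ => ?_
    rw [map_zsmul]
    simp
  exact (AddEquiv.map_eq_zero_iff _).mp h2

end pr

section two

variable {k : Type*} [Field k] [DecidableEq k] [CharZero k] {W W' : WeierstrassCurve.Affine k}
  {F : Type*} [Field F] [DecidableEq F] [Algebra k F] {X Y X' Y' : F} {P : W.Point} {P' : W'.Point}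
  {n₀ n₁ : ℕ} [NeZero n₀] [NeZero n₁] (hO : addOrderOf P = n₀) (hO' : addOrderOf P' = n₁)
  [Fintype (AddSubgroup.zmultiples P)] [DecidableEq (AddSubgroup.zmultiples P)]
  [Fintype (AddSubgroup.zmultiples P')] [DecidableEq (AddSubgroup.zmultiples P')]
  (hg : Gen W X Y) (hg' : Gen W' X' Y')

/-- the functions of `W'` are functions of `W` -/
structure Lk (σ : (ZMod n₁ → ℤ) → ZMod n₀ → ℤ) : Prop where
  up : ∀ {f : F} {M : ZMod n₁ → ℤ}, PQ hO' hg' f M → PQ hO hg f (σ M)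
  down : ∀ {f : F} {M : ZMod n₁ → ℤ}, ∑ x, M x = 0 → ∑ x, M x • x = 0 → PQ hO hg f (σ M) →
    PQ hO' hg' f M

/-- a basis -/
def Bas {n r : ℕ} [NeZero n] (d : Fin r → ZMod n → ℤ) : Prop :=
  ∀ M : ZMod n → ℤ, ∑ x, M x = 0 → ∑ x, M x • x = 0 → ∃ a : Fin r → ℤ, ∀ x, M x = ∑ j, a j * d j x

variable {hO hO' hg hg'}

theorem lk_of {r : ℕ} {σ : (ZMod n₁ → ℤ) → ZMod n₀ → ℤ} {d : Fin r → ZMod n₁ → ℤ}
    (hd : Bas d) (hσ : ∀ a : Fin r → ℤ, ∀ x, σ (fun y => ∑ j, a j * d j y) x =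
      ∑ j, a j * σ (d j) x)
    {u : Fin r → F} (h1 : ∀ j, PQ hO' hg' (u j) (d j)) (h2 : ∀ j, PQ hO hg (u j) (σ (d j))) :
    Lk hO hO' hg hg' σ := by
  have key : ∀ M : ZMod n₁ → ℤ, ∑ x, M x = 0 → ∑ x, M x • x = 0 → ∃ g : F, PQ hO' hg' g M ∧
      PQ hO hg g (σ M) := by
    intro M hM hM'
    obtain ⟨a, ha⟩ := hd M hM hM'
    have e := funext ha
    rw [e]
    refine ⟨∏ j, u j ^ a j, PQ.prod _ fun j => (h1 j).zpow _, ?_⟩
    exact (PQ.prod _ fun j => (h2 j).zpow _).congr fun x => (hσ a x).symm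
  constructor
  · intro f M h
    obtain ⟨g, g1, g2⟩ := key M h.s0 h.s1
    obtain ⟨c, hc, e⟩ := h.eq_smul g1
    rw [e]
    exact g2.smul hc
  · intro f M hM hM' h
    obtain ⟨g, g1, g2⟩ := key M hM hM'
    obtain ⟨c, hc, e⟩ := h.eq_smul g2
    rw [e]
    exact g1.smul hc

/-- three divisors -/
lemma Lk.q3_up {σ : (ZMod n₁ → ℤ) → ZMod n₀ → ℤ} (h : Lk hO hO' hg hg' σ)
    (hs : ∀ D G : ZMod n₁ → ℤ, ∀ x, σ (fun y => D y - G y) x = σ D x - σ G x)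
    {f : F} {D E G : ZMod n₁ → ℤ} (hf : Q3 hO' hg' f D E G) : Q3 hO hg f (σ D) (σ E) (σ G) :=
  ⟨(h.up hf.p).congr (hs D G), (h.up hf.q).congr (hs E G)⟩

lemma Lk.q3_down {σ : (ZMod n₁ → ℤ) → ZMod n₀ → ℤ} (h : Lk hO hO' hg hg' σ)
    (hs : ∀ D G : ZMod n₁ → ℤ, ∀ x, σ (fun y => D y - G y) x = σ D x - σ G x)
    {f : F} {D E G : ZMod n₁ → ℤ} (h1 : ∑ x, (D x - G x) = 0) (h2 : ∑ x, (E x - G x) = 0)
    (h3 : ∑ x, (D x - G x) • x = 0) (h4 : ∑ x, (E x - G x) • x = 0)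
    (hf : Q3 hO hg f (σ D) (σ E) (σ G)) : Q3 hO' hg' f D E G :=
  ⟨h.down h1 h3 (hf.p.congr fun x => (hs D G x).symm),
    h.down h2 h4 (hf.q.congr fun x => (hs E G x).symm)⟩

/-- functions of the second curve -/
theorem Lk.unit {σ : (ZMod n₁ → ℤ) → ZMod n₀ → ℤ} (h : Lk hO hO' hg hg' σ)
    (hs : ∀ D G : ZMod n₁ → ℤ, ∀ x, σ (fun y => D y - G y) x = σ D x - σ G x)
    (hU : ∀ f : F, IsUn (AddSubgroup.zmultiples P') X' Y' f →
      IsUn (AddSubgroup.zmultiples P') X' Y' (1 - f) →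
      (∃ c : k, f = algebraMap k F c) ∨ LineS (AddSubgroup.zmultiples P') X' Y' f)
    {f : F} {D E G : ZMod n₁ → ℤ} (h1 : ∑ x, (D x - G x) = 0) (h2 : ∑ x, (E x - G x) = 0)
    (h3 : ∑ x, (D x - G x) • x = 0) (h4 : ∑ x, (E x - G x) • x = 0)
    (hf : Q3 hO hg f (σ D) (σ E) (σ G)) :
    (∃ c : k, f = algebraMap k F c) ∨ LineS (AddSubgroup.zmultiples P') X' Y' f ∧
      ∃ S p q r : ZMod n₁, Nd S p q r ∧ Q3 hO' hg' f (mz S p) (mz S r) (mz S q) ∧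
        Q3 hO hg f (σ (mz S p)) (σ (mz S r)) (σ (mz S q)) := by
  have h5 := h.q3_down hs h1 h2 h3 h4 hf
  rcases hU f h5.p.1 h5.q.1 with h6 | h6
  · exact Or.inl h6
  rcases lineS_Q3 hO' hg' h6 with h7 | ⟨S, p, q, r, hn, h7⟩
  · exact Or.inl h7
  · exact Or.inr ⟨h6, S, p, q, r, hn, h7, h.q3_up hs h7⟩

end two

/-! ### the orders six and four -/

/-- the basis for order six -/
def b6 : Fin 5 → ZMod 6 → ℤ := ![dV 1, dV 2, dV 3, dL 1 1, dL 1 2]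

/-- the basis for order four -/
def b4 : Fin 3 → ZMod 4 → ℤ := ![dV 1, dV 2, dL 1 1]

/-- a vector as a function -/
def z4 (v : Fin 4 → ℤ) : ZMod 4 → ℤ := v

/-- a vector as a function -/
def z6 (v : Fin 6 → ℤ) : ZMod 6 → ℤ := v

/-- a vector as a function -/
def z12 (v : Fin 12 → ℤ) : ZMod 12 → ℤ := v

lemma forall4 {p : ZMod 4 → Prop} (h0 : p 0) (h1 : p 1) (h2 : p 2) (h3 : p 3) (x : ZMod 4) : p x := by
  change Fin 4 at x
  fin_cases x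
  · exact h0
  · exact h1
  · exact h2
  · exact h3

lemma forall6 {p : ZMod 6 → Prop} (h0 : p 0) (h1 : p 1) (h2 : p 2) (h3 : p 3) (h4 : p 4) (h5 : p 5) (x : ZMod 6) : p x := by
  change Fin 6 at x
  fin_cases x
  · exact h0
  · exact h1
  · exact h2
  · exact h3
  · exact h4
  · exact h5

lemma forall12 {p : ZMod 12 → Prop} (h0 : p 0) (h1 : p 1) (h2 : p 2) (h3 : p 3) (h4 : p 4) (h5 : p 5) (h6 : p 6) (h7 : p 7) (h8 : p 8) (h9 : p 9) (h10 : p 10) (h11 : p 11) (x : ZMod 12) : p x := by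
  change Fin 12 at x
  fin_cases x
  · exact h0
  · exact h1
  · exact h2
  · exact h3
  · exact h4
  · exact h5
  · exact h6
  · exact h7
  · exact h8
  · exact h9
  · exact h10
  · exact h11

lemma b40 : ∀ x, b4 0 x = z4 ![-2, 1, 0, 1] x := by decide

lemma b41 : ∀ x, b4 1 x = z4 ![-2, 0, 2, 0] x := by decide

lemma b42 : ∀ x, b4 2 x = z4 ![-3, 2, 1, 0] x := by decide

lemma b60 : ∀ x, b6 0 x = z6 ![-2, 1, 0, 0, 0, 1] x := by decide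

lemma b61 : ∀ x, b6 1 x = z6 ![-2, 0, 1, 0, 1, 0] x := by decide

lemma b62 : ∀ x, b6 2 x = z6 ![-2, 0, 0, 2, 0, 0] x := by decide

lemma b63 : ∀ x, b6 3 x = z6 ![-3, 2, 0, 0, 1, 0] x := by decide

lemma b64 : ∀ x, b6 4 x = z6 ![-3, 1, 1, 1, 0, 0] x := by decide

lemma bas4 : Bas b4 := by
  intro M h0 h1
  have e0 : ∑ x : ZMod 4, M x = M 0 + M 1 + M 2 + M 3 := Fin.sum_univ_four _
  have e1 : ∑ x : ZMod 4, M x • x = M 0 • (0 : ZMod 4) + M 1 • (1 : ZMod 4) + M 2 • (2 : ZMod 4) +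
    M 3 • (3 : ZMod 4) := Fin.sum_univ_four _
  rw [e0] at h0
  rw [e1] at h1
  have h2 : ((M 1 + 2 * M 2 + 3 * M 3 : ℤ) : ZMod 4) = 0 := by
    simp only [zsmul_eq_mul] at h1
    push_cast
    rw [← h1]
    ring
  obtain ⟨q, hq⟩ := (ZMod.intCast_zmod_eq_zero_iff_dvd _ 4).mp h2
  have hq' : M 1 + 2 * M 2 + 3 * M 3 = 4 * q := by exact_mod_cast hq
  refine ⟨![M 3, M 2 + M 3 - q, 2 * q - M 2 - 2 * M 3], fun x => ?_⟩
  rw [Fin.sum_univ_three, b40, b41, b42]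
  have a0 : (![M 3, M 2 + M 3 - q, 2 * q - M 2 - 2 * M 3] : Fin 3 → ℤ) 0 = M 3 := rfl
  have a1 : (![M 3, M 2 + M 3 - q, 2 * q - M 2 - 2 * M 3] : Fin 3 → ℤ) 1 = M 2 + M 3 - q := rfl
  have a2 : (![M 3, M 2 + M 3 - q, 2 * q - M 2 - 2 * M 3] : Fin 3 → ℤ) 2 =
    2 * q - M 2 - 2 * M 3 := rfl
  rw [a0, a1, a2]
  revert x
  refine forall4 ?_ ?_ ?_ ?_
  · show M 0 = M 3 * (-2) + (M 2 + M 3 - q) * (-2) + (2 * q - M 2 - 2 * M 3) * (-3)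
    linarith
  · show M 1 = M 3 * 1 + (M 2 + M 3 - q) * 0 + (2 * q - M 2 - 2 * M 3) * 2
    linarith
  · show M 2 = M 3 * 0 + (M 2 + M 3 - q) * 2 + (2 * q - M 2 - 2 * M 3) * 1
    linarith
  · show M 3 = M 3 * 1 + (M 2 + M 3 - q) * 0 + (2 * q - M 2 - 2 * M 3) * 0
    linarith

lemma bas6 : Bas b6 := by
  intro M h0 h1
  have e0 : ∑ x : ZMod 6, M x = M 0 + M 1 + M 2 + M 3 + M 4 + M 5 := Fin.sum_univ_six _
  have e1 : ∑ x : ZMod 6, M x • x = M 0 • (0 : ZMod 6) + M 1 • (1 : ZMod 6) + M 2 • (2 : ZMod 6) +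
    M 3 • (3 : ZMod 6) + M 4 • (4 : ZMod 6) + M 5 • (5 : ZMod 6) := Fin.sum_univ_six _
  rw [e0] at h0
  rw [e1] at h1
  have h2 : ((M 1 + 2 * M 2 + 3 * M 3 + 4 * M 4 + 5 * M 5 : ℤ) : ZMod 6) = 0 := by
    simp only [zsmul_eq_mul] at h1
    push_cast
    rw [← h1]
    ring
  obtain ⟨q, hq⟩ := (ZMod.intCast_zmod_eq_zero_iff_dvd _ 6).mp h2
  have hq' : M 1 + 2 * M 2 + 3 * M 3 + 4 * M 4 + 5 * M 5 = 6 * q := by exact_mod_cast hq
  obtain ⟨A, hA⟩ : ∃ A, A = 2 * M 5 + 2 * M 4 + M 2 + M 3 - 2 * q := ⟨_, rfl⟩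
  obtain ⟨B, hB⟩ : ∃ B, B = M 3 + M 5 + M 4 - q := ⟨_, rfl⟩
  obtain ⟨C, hC⟩ : ∃ C, C = M 4 - A := ⟨_, rfl⟩
  obtain ⟨D, hD⟩ : ∃ D, D = M 2 - A := ⟨_, rfl⟩
  refine ⟨![M 5, A, B, C, D], fun x => ?_⟩
  rw [Fin.sum_univ_five, b60, b61, b62, b63, b64]
  have a0 : (![M 5, A, B, C, D] : Fin 5 → ℤ) 0 = M 5 := rfl
  have a1 : (![M 5, A, B, C, D] : Fin 5 → ℤ) 1 = A := rfl
  have a2 : (![M 5, A, B, C, D] : Fin 5 → ℤ) 2 = B := rfl
  have a3 : (![M 5, A, B, C, D] : Fin 5 → ℤ) 3 = C := rfl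
  have a4 : (![M 5, A, B, C, D] : Fin 5 → ℤ) 4 = D := rfl
  rw [a0, a1, a2, a3, a4]
  revert x
  refine forall6 ?_ ?_ ?_ ?_ ?_ ?_
  · show M 0 = M 5 * (-2) + A * (-2) + B * (-2) + C * (-3) + D * (-3)
    linarith
  · show M 1 = M 5 * 1 + A * 0 + B * 0 + C * 2 + D * 1
    linarith
  · show M 2 = M 5 * 0 + A * 1 + B * 0 + C * 0 + D * 1
    linarith
  · show M 3 = M 5 * 0 + A * 0 + B * 2 + C * 0 + D * 1
    linarith
  · show M 4 = M 5 * 0 + A * 1 + B * 0 + C * 1 + D * 0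
    linarith
  · show M 5 = M 5 * 1 + A * 0 + B * 0 + C * 0 + D * 0
    linarith

/-- the reduction modulo six -/
def r6 : ZMod 12 → ZMod 6 := (![0, 1, 2, 3, 4, 5, 0, 1, 2, 3, 4, 5] : Fin 12 → Fin 6)

/-- the reduction modulo four -/
def r4 : ZMod 12 → ZMod 4 := (![0, 1, 2, 3, 0, 1, 2, 3, 0, 1, 2, 3] : Fin 12 → Fin 4)

/-- the pull-back -/
def pb {n m : ℕ} (r : ZMod n → ZMod m) (M : ZMod m → ℤ) : ZMod n → ℤ := fun x => M (r x)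

/-- extension by zero -/
def x6 (M : ZMod 6 → ℤ) : ZMod 12 → ℤ := z12 ![M 0, 0, M 1, 0, M 2, 0, M 3, 0, M 4, 0, M 5, 0]

lemma x6_add {r : ℕ} (d : Fin r → ZMod 6 → ℤ) (a : Fin r → ℤ) : ∀ x : ZMod 12,
    x6 (fun y => ∑ j, a j * d j y) x = ∑ j, a j * x6 (d j) x := by
  have h0 : (0 : ℤ) = ∑ j, a j * 0 := by simp
  exact forall12 rfl h0 rfl h0 rfl h0 rfl h0 rfl h0 rfl h0

lemma x6_sub (D G : ZMod 6 → ℤ) : ∀ x : ZMod 12,
    x6 (fun y => D y - G y) x = x6 D x - x6 G x := by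
  have h0 : (0 : ℤ) = 0 - 0 := by simp
  exact forall12 rfl h0 rfl h0 rfl h0 rfl h0 rfl h0 rfl h0

end Pool.Agent.UEN
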