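import Pool.Agent.Lib_helper76.UEN.E

/-!
# The translates of the generic point of a curve in Tate's normal form
-/

set_option autoImplicit false
set_option linter.unusedSectionVars false

namespace Pool.Agent.UEN

open WeierstrassCurve.Affine Polynomial GK UP
open UEG (Gen IsUn LineOK P0 negY_wt bc WF)
open TN (Wt)

/-- the translation by `(0,0)` -/
def tP {F : Type*} [Field F] (B : F) (p : F × F) : F × F :=
  (B * p.2 / p.1 ^ 2, B ^ 2 * (p.1 ^ 2 - p.2) / p.1 ^ 3)

variable {k : Type*} [Field k] [DecidableEq k] [CharZero k] {b c : k} {F : Type*} [Field F]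
  [DecidableEq F] [Algebra k F] {x y : F}

/-- one translation -/
lemma gen_tP (hb : b ≠ 0) (hg : Gen (Wt b c) x y) :
    ∃ hg' : Gen (Wt b c) (tP (algebraMap k F b) (x, y)).1 (tP (algebraMap k F b) (x, y)).2,
      gp hg' = gp hg + bc F (Wt b c) (P0 c hb) := by
  obtain ⟨X', Y', hg', e'⟩ := gen_add hg (P0 c hb)
  obtain ⟨h', e⟩ := UEG.add_P0 (F := F) (c := c) hb hg.x_ne hg.ns
  have e1 : gp hg' = gp hg + bc F (Wt b c) (P0 c hb) := e'
  have e2 : Point.some X' Y' hg'.ns = Point.some _ _ h' := by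
    rw [← e]; exact e1
  obtain ⟨rfl, rfl⟩ := Point.some.inj e2
  exact ⟨hg', e1⟩

/-- several translations -/
lemma gen_tPj (hb : b ≠ 0) (hg : Gen (Wt b c) x y) (j : ℕ) :
    ∃ hg' : Gen (Wt b c) ((tP (algebraMap k F b))^[j] (x, y)).1
      ((tP (algebraMap k F b))^[j] (x, y)).2,
      gp hg' = gp hg + bc F (Wt b c) (j • P0 c hb) := by
  induction j with
  | zero =>
    refine ⟨hg, ?_⟩
    rw [zero_smul, map_zero, add_zero]
    rfl
  | succ j ih =>
    obtain ⟨hg1, e1⟩ := ih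
    obtain ⟨hg2, e2⟩ := gen_tP hb hg1
    rw [Function.iterate_succ_apply']
    refine ⟨hg2, ?_⟩
    rw [e2, e1, add_nsmul, one_nsmul, map_add, add_assoc]

variable {n₀ : ℕ} [NeZero n₀] {hb : b ≠ 0} {hO : addOrderOf (P0 c hb) = n₀}

/-- the generic points which differ by a multiple of `P` -/
lemma gen_eq {X' Y' : F} {hg : Gen (Wt b c) x y} {hg' : Gen (Wt b c) X' Y'} {s : ZMod n₀}
    (e : gp hg' = gp hg + pp F (AddSubgroup.zmultiples (P0 c hb)) (en hO s)) :
    (X', Y') = (tP (algebraMap k F b))^[s.val] (x, y) := by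
  obtain ⟨hg2, e2⟩ := gen_tPj hb hg s.val
  have e3 : gp hg' = gp hg2 := by
    rw [e, e2, pp_apply, en_val]
  have e4 : Point.some X' Y' hg'.ns = Point.some _ _ hg2.ns := e3
  obtain ⟨e5, e6⟩ := Point.some.inj e4
  exact Prod.ext e5 e6

lemma gen_pp (hg : Gen (Wt b c) x y) (j : ℕ) :
    ∃ hg' : Gen (Wt b c) ((tP (algebraMap k F b))^[j] (x, y)).1
      ((tP (algebraMap k F b))^[j] (x, y)).2,
      gp hg' = gp hg + pp F (AddSubgroup.zmultiples (P0 c hb)) (en hO (j : ZMod n₀)) := by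
  obtain ⟨hg2, e2⟩ := gen_tPj hb hg j
  refine ⟨hg2, ?_⟩
  rw [e2, pp_apply]
  congr 2
  have h := enh_int hO (j : ℤ)
  rw [natCast_zsmul, Int.cast_natCast] at h
  exact h.symm

end Pool.Agent.UEN
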