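import Pool.Agent.Lib_helper76.UEN.H

/-!
# Pencils of a second curve
-/

set_option autoImplicit false
set_option linter.unusedSectionVars false

open scoped TensorProduct

namespace Pool.Agent.UEN

open WeierstrassCurve.Affine Polynomial WithZero GK UP
open UEG (Gen IsUn)

section comb

variable {A : Type*} [AddCommGroup A] [DecidableEq A]

lemma mz_shift (S p T x : A) : mz S p (x - T) = mz (S + (T + T)) (p + T) x := by
  unfold mz
  have e1 : (x - T = p) = (x = p + T) := propext sub_eq_iff_eq_add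
  have e2 : (x - T = S - p) = (x = S + (T + T) - (p + T)) := by
    apply propext
    rw [sub_eq_iff_eq_add]
    have : S - p + T = S + (T + T) - (p + T) := by abel
    rw [this]
  simp only [e1, e2]

lemma nd_shift {S p q r : A} (T : A) (h : Nd S p q r) :
    Nd (S + (T + T)) (p + T) (q + T) (r + T) := by
  obtain ⟨h1, h2, h3, h4, h5, h6⟩ := h
  have e : ∀ a : A, S + (T + T) - (a + T) = S - a + T := fun a => by abel
  unfold Nd
  simp only [e]
  exact ⟨fun h => h1 (add_right_cancel h), fun h => h2 (add_right_cancel h),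
    fun h => h3 (add_right_cancel h), fun h => h4 (add_right_cancel h),
    fun h => h5 (add_right_cancel h), fun h => h6 (add_right_cancel h)⟩

lemma nd_swap {S p q r : A} (h : Nd S p q r) : Nd S r q p := by
  obtain ⟨h1, h2, h3, h4, h5, h6⟩ := h
  exact ⟨Ne.symm h3, fun h => h4 (by rw [h]; abel), Ne.symm h1, fun h => h2 (by rw [h]; abel),
    Ne.symm h5, fun h => h6 (by rw [h]; abel)⟩

lemma nd_swap' {S p q r : A} (h : Nd S p q r) : Nd S q p r := by
  obtain ⟨h1, h2, h3, h4, h5, h6⟩ := h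
  exact ⟨Ne.symm h1, fun h => h2 (by rw [h]; abel), h5, h6, h3, h4⟩

end comb

variable {k : Type*} [Field k] [DecidableEq k] [CharZero k] {W : WeierstrassCurve.Affine k}
  {F : Type*} [Field F] [DecidableEq F] [Algebra k F] {X Y X' Y' : F} {P : W.Point} {n₀ n : ℕ}
  [NeZero n₀] (hO : addOrderOf P = n₀)
  [Fintype (AddSubgroup.zmultiples P)] [DecidableEq (AddSubgroup.zmultiples P)]

/-- the divisors of a quotient of lines on a second curve -/
def RG (σ : (ZMod n → ℤ) → ZMod n₀ → ℤ) (hg : Gen W X Y) (f : F) : Prop :=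
  ∃ S p q r : ZMod n, Nd S p q r ∧ Q3 hO hg f (σ (mz S p)) (σ (mz S r)) (σ (mz S q))

variable {hO} {σ : (ZMod n → ℤ) → ZMod n₀ → ℤ} {hg : Gen W X Y} {hg' : Gen W X' Y'} {f : F}

lemma RG.sub (h : RG hO σ hg (1 - f)) : RG hO σ hg f := by
  obtain ⟨S, p, q, r, hn, h⟩ := h
  have := h.sub
  rw [sub_sub_cancel] at this
  exact ⟨S, r, q, p, nd_swap hn, this⟩

lemma RG.inv (h : RG hO σ hg f⁻¹) : RG hO σ hg f := by
  obtain ⟨S, p, q, r, hn, h⟩ := h
  have := h.inv
  rw [inv_inv] at this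
  exact ⟨S, q, p, r, nd_swap' hn, this⟩

lemma RG.tr (h : RG hO σ hg f) {T : ZMod n₀}
    (e : gp hg' = gp hg + pp F (AddSubgroup.zmultiples P) (en hO T)) (τ : ZMod n)
    (hσ : ∀ (M : ZMod n → ℤ) (x : ZMod n₀), σ M (x - T) = σ (fun y => M (y - τ)) x) :
    RG hO σ hg' f := by
  obtain ⟨S, p, q, r, hn, h⟩ := h
  refine ⟨_, _, _, _, nd_shift τ hn, ?_⟩
  have key : ∀ S p : ZMod n, ∀ x, σ (mz S p) (x - T) = σ (mz (S + (τ + τ)) (p + τ)) x := by
    intro S p x
    rw [hσ]
    congr 1
    funext y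
    exact mz_shift _ _ _ _
  exact (h.tr e).congr (key S p) (key S r) (key S q)

end Pool.Agent.UEN
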