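import Pool.Agent.Lib_helper76.UEN.B
import Pool.Agent.Lib_helper76.FAM.Thr

/-!
# The unit equation on the multiples of a point of finite order, from the three fibres
-/

set_option autoImplicit false
set_option linter.unusedSectionVars false

open scoped TensorProduct

namespace Pool.Agent.UEN

open WeierstrassCurve.Affine Polynomial WithZero GK UP
open UEG (Gen IsUn LineOK P0 negY_wt)
open TN (Wt Orb)
open MK4 (FT lg)
open FK4 (LineS Supp supp_iff)

section general

variable {k : Type*} [Field k] [DecidableEq k] [CharZero k] {W : WeierstrassCurve.Affine k}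
  {F : Type*} [Field F] [DecidableEq F] [Algebra k F] {X Y X' Y' : F} {P : W.Point}
  {n₀ : ℕ} [NeZero n₀] {hO : addOrderOf P = n₀}
  [Fintype (AddSubgroup.zmultiples P)] [DecidableEq (AddSubgroup.zmultiples P)]
  {hg : Gen W X Y} {f : F} {D E G : ZMod n₀ → ℤ}

lemma Q3.congr (h : Q3 hO hg f D E G) {D' E' G' : ZMod n₀ → ℤ} (h1 : ∀ x, D x = D' x)
    (h2 : ∀ x, E x = E' x) (h3 : ∀ x, G x = G' x) : Q3 hO hg f D' E' G' := by
  rw [← funext h1, ← funext h2, ← funext h3]; exact h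

/-- one of the six orders -/
def Six {n₀ : ℕ} (P : (ZMod n₀ → ℤ) → (ZMod n₀ → ℤ) → (ZMod n₀ → ℤ) → Prop) (D E G : ZMod n₀ → ℤ) : Prop :=
  P D E G ∨ P D G E ∨ P E D G ∨ P E G D ∨ P G D E ∨ P G E D

lemma Q3.six (h : Q3 hO hg f D E G) {R : F → Prop} (hs : ∀ f, R (1 - f) → R f)
    (hi : ∀ f, R f⁻¹ → R f) {P : (ZMod n₀ → ℤ) → (ZMod n₀ → ℤ) → (ZMod n₀ → ℤ) → Prop}
    (ho : Six P D E G) : ∃ (f' : F) (A B C : ZMod n₀ → ℤ), P A B C ∧ Q3 hO hg f' A B C ∧
      (R f' → R f) := by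
  rcases ho with ho | ho | ho | ho | ho | ho
  · exact ⟨_, _, _, _, ho, h, id⟩
  · exact ⟨_, _, _, _, ho, h.sub.inv.sub, fun h => hs _ (hi _ (hs _ h))⟩
  · exact ⟨_, _, _, _, ho, h.sub, fun h => hs _ h⟩
  · exact ⟨_, _, _, _, ho, h.inv.sub, fun h => hi _ (hs _ h)⟩
  · exact ⟨_, _, _, _, ho, h.sub.inv, fun h => hs _ (hi _ h)⟩
  · exact ⟨_, _, _, _, ho, h.inv, fun h => hi _ h⟩

/-- the pencils -/
theorem pencilN {d : ℤ} (hT : Tr D E G d) (h : Q3 hO hg f D E G) {S p q r : ZMod n₀} {N : ℤ}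
    (hN : 0 < N) (a1 : ∀ x, D x = N * mz S p x) (a2 : ∀ x, E x = N * mz S r x)
    (a3 : ∀ x, G x = N * mz S q x) : LineS (AddSubgroup.zmultiples P) X Y f := by
  obtain ⟨⟨hf, κ, w, h1⟩, ⟨hf', κ', w', h2⟩⟩ := h
  have hmz : ∀ (S p : ZMod n₀) (a : AddSubgroup.zmultiples P), mz (en hO S) (en hO p) a =
      mz S p ((en hO).symm a) := by
    intro S p a
    unfold mz
    simp only [← map_sub, AddEquiv.symm_apply_eq]
  have pos : ∀ S x : ZMod n₀, 0 < mz S x x := fun S x => by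
    unfold mz
    rw [if_pos rfl]
    split_ifs <;> norm_num
  have pos' : ∀ S x : ZMod n₀, 0 < mz S x (S - x) := fun S x => by
    unfold mz
    rw [if_pos rfl]
    split_ifs <;> norm_num
  have b1 := hT.gd
  have b2 := hT.eg
  have b3 := hT.de
  simp only [a1, a2, a3] at b1 b2 b3
  have hN0 : N ≠ 0 := hN.ne'
  have m0 : ∀ {S x y : ZMod n₀}, 0 < mz S x y → N * mz S x y ≠ 0 :=
    fun h => mul_ne_zero hN0 h.ne'
  have inj : ∀ {a b : ZMod n₀}, a ≠ b → en hO a ≠ en hO b := fun h h' => h ((en hO).injective h')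
  have hn : Nd (en hO S) (en hO p) (en hO q) (en hO r) := by
    unfold Nd
    simp only [← map_sub]
    refine ⟨inj ?_, inj ?_, inj ?_, inj ?_, inj ?_, inj ?_⟩
    · rintro rfl
      exact m0 (pos S p) (b1 p (m0 (pos S p)))
    · rintro rfl
      exact m0 (pos S (S - q)) (b1 (S - q) (m0 (pos' S q)))
    · rintro rfl
      exact m0 (pos S q) (b2 q (m0 (pos S q)))
    · rintro rfl
      exact m0 (pos S (S - r)) (b2 (S - r) (m0 (pos' S r)))
    · rintro rfl
      exact m0 (pos S p) (b3 p (m0 (pos S p)))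
    · rintro rfl
      exact m0 (pos' S r) (b3 (S - r) (m0 (pos S (S - r))))
  refine case_two lc_ok ac_ok powers_ok hg hf hf' h1 h2 hN hn (fun x => ?_) (fun x => ?_)
  · show D _ - G _ = _
    rw [a1, a3, hmz, hmz]; ring
  · show E _ - G _ = _
    rw [a2, a3, hmz, hmz]; ring

end general

section general

variable {k : Type*} [Field k] [DecidableEq k] [CharZero k] {W : WeierstrassCurve.Affine k}
  {F : Type*} [Field F] [DecidableEq F] [Algebra k F] {X Y : F}

/-- a function whose divisors are multiples of those of a cross ratio -/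
lemma case_two' {H : AddSubgroup W.Point} [Fintype H] [DecidableEq H]
    {lc : W.FunctionField → k} (hlc : IsLC W lc)
    (hAC : AC W) (hP : Powers k F) (hg : Gen W X Y) {f : F} (hf : IsUn H X Y f)
    (hf' : IsUn H X Y (1 - f)) {m n : H → ℤ} {κ κ' : FT F} {w w' : W.FunctionField}
    (h : PU H lc hg f m κ w) (h' : PU H lc hg (1 - f) n κ' w') {S p q r : H} {N : ℤ} (hN : 0 < N)
    (hn : Nd S p q r) (h1 : ∀ x, m x = N * (mz S p x - mz S q x))
    (h2 : ∀ x, n x = N * (mz S r x - mz S q x)) : N = 1 := by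
  obtain ⟨M, rfl⟩ := Int.eq_ofNat_of_zero_le hN.le
  have hM : 0 < M := by exact_mod_cast hN
  have hL := lamH_lineS hg hn
  have hLu := supp_iff.mp hL.supp.1
  have hLu' := supp_iff.mp hL.supp.2
  have : CharZero F := charZero_of_injective_algebraMap (algebraMap k F).injective
  have hF := (sysH H hg).fam
  have hGV : ∀ a, GG (pp F H) a ∈ TN.V0 k F := hF.GV
  obtain ⟨c, hc, e1⟩ := eq_pow hlc hAC hg hf h (n := M) h1 hLu ⟨_, by
    exact Submodule.sub_mem _ (Submodule.sub_mem _ (Submodule.add_mem _ (hGV _) (hGV _)) (hGV _))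
      (hGV _), hF.lg0 S p q r hn⟩
  obtain ⟨c', hc', e2⟩ := eq_pow hlc hAC hg hf' h' (n := M) h2 hLu' ⟨_, by
    exact Submodule.sub_mem _ (Submodule.sub_mem _ (Submodule.add_mem _ (hGV _) (hGV _)) (hGV _))
      (hGV _), hF.lg1 S p q r hn⟩
  have htr : Transcendental k (lamH H hg S p q r) := (sysH H hg).tr S p q r hn
  have e3 : algebraMap k F c * (lamH H hg S p q r) ^ M +
      algebraMap k F c' * (1 - lamH H hg S p q r) ^ M = 1 := by
    rw [← e1, ← e2]; ring
  obtain ⟨h3, h4⟩ := hP _ c c' M htr hc hc' hM e3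
  rw [h3]; rfl

variable {P : W.Point} {n₀ : ℕ} [NeZero n₀] {hO : addOrderOf P = n₀}
  [Fintype (AddSubgroup.zmultiples P)] [DecidableEq (AddSubgroup.zmultiples P)]
  {hg : Gen W X Y} {f : F} {D E G : ZMod n₀ → ℤ}

/-- the pencils -/
theorem pencilN' {d : ℤ} (hT : Tr D E G d) (h : Q3 hO hg f D E G) {S p q r : ZMod n₀} {N : ℤ}
    (hN : 0 < N) (a1 : ∀ x, D x = N * mz S p x) (a2 : ∀ x, E x = N * mz S r x)
    (a3 : ∀ x, G x = N * mz S q x) : Nd S p q r ∧ Q3 hO hg f (mz S p) (mz S r) (mz S q) := by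
  have h0 := h
  obtain ⟨⟨hf, κ, w, h1⟩, ⟨hf', κ', w', h2⟩⟩ := h
  have hmz : ∀ (S p : ZMod n₀) (a : AddSubgroup.zmultiples P), mz (en hO S) (en hO p) a =
      mz S p ((en hO).symm a) := by
    intro S p a
    unfold mz
    simp only [← map_sub, AddEquiv.symm_apply_eq]
  have pos : ∀ S x : ZMod n₀, 0 < mz S x x := fun S x => by
    unfold mz
    rw [if_pos rfl]
    split_ifs <;> norm_num
  have pos' : ∀ S x : ZMod n₀, 0 < mz S x (S - x) := fun S x => by
    unfold mz
    rw [if_pos rfl]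
    split_ifs <;> norm_num
  have b1 := hT.gd
  have b2 := hT.eg
  have b3 := hT.de
  simp only [a1, a2, a3] at b1 b2 b3
  have hN0 : N ≠ 0 := hN.ne'
  have m0 : ∀ {S x y : ZMod n₀}, 0 < mz S x y → N * mz S x y ≠ 0 :=
    fun h => mul_ne_zero hN0 h.ne'
  have inj : ∀ {a b : ZMod n₀}, a ≠ b → en hO a ≠ en hO b := fun h h' => h ((en hO).injective h')
  have hn : Nd S p q r := by
    refine ⟨?_, ?_, ?_, ?_, ?_, ?_⟩
    · rintro rfl
      exact m0 (pos S p) (b1 p (m0 (pos S p)))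
    · rintro rfl
      exact m0 (pos S (S - q)) (b1 (S - q) (m0 (pos' S q)))
    · rintro rfl
      exact m0 (pos S q) (b2 q (m0 (pos S q)))
    · rintro rfl
      exact m0 (pos S (S - r)) (b2 (S - r) (m0 (pos' S r)))
    · rintro rfl
      exact m0 (pos S p) (b3 p (m0 (pos S p)))
    · rintro rfl
      exact m0 (pos' S r) (b3 (S - r) (m0 (pos S (S - r))))
  have hn' : Nd (en hO S) (en hO p) (en hO q) (en hO r) := by
    obtain ⟨n1, n2, n3, n4, n5, n6⟩ := hn
    unfold Nd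
    simp only [← map_sub]
    exact ⟨inj n1, inj n2, inj n3, inj n4, inj n5, inj n6⟩
  have h1' : N = 1 := case_two' lc_ok ac_ok powers_ok hg hf hf' h1 h2 hN hn' (fun x => by
    show D _ - G _ = _
    rw [a1, a3, hmz, hmz]; ring) (fun x => by
    show E _ - G _ = _
    rw [a2, a3, hmz, hmz]; ring)
  subst h1'
  exact ⟨hn, h0.congr (fun x => by rw [a1, one_mul]) (fun x => by rw [a2, one_mul])
    (fun x => by rw [a3, one_mul])⟩

/-- the pencils are quotients of lines -/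
theorem pencil8_line {S p q r : ZMod n₀} (hn : Nd S p q r)
    (h : Q3 hO hg f (mz S p) (mz S r) (mz S q)) : LineS (AddSubgroup.zmultiples P) X Y f := by
  obtain ⟨⟨hf, κ, w, h1⟩, ⟨hf', κ', w', h2⟩⟩ := h
  have hmz : ∀ (S p : ZMod n₀) (a : AddSubgroup.zmultiples P), mz (en hO S) (en hO p) a =
      mz S p ((en hO).symm a) := by
    intro S p a
    unfold mz
    simp only [← map_sub, AddEquiv.symm_apply_eq]
  have inj : ∀ {a b : ZMod n₀}, a ≠ b → en hO a ≠ en hO b := fun h h' => h ((en hO).injective h')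
  have hn' : Nd (en hO S) (en hO p) (en hO q) (en hO r) := by
    obtain ⟨n1, n2, n3, n4, n5, n6⟩ := hn
    unfold Nd
    simp only [← map_sub]
    exact ⟨inj n1, inj n2, inj n3, inj n4, inj n5, inj n6⟩
  exact case_two lc_ok ac_ok powers_ok hg hf hf' h1 h2 one_pos hn' (fun x => by
    show mz S p _ - mz S q _ = _
    rw [hmz, hmz]; ring) (fun x => by
    show mz S r _ - mz S q _ = _
    rw [hmz, hmz]; ring)

end general

end Pool.Agent.UEN
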