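import Pool.Agent.Lib_helper76.UEN.P
import Pool.Agent.Lib_helper76.UEN.C

/-!
# Quotients of lines on a second curve
-/

set_option autoImplicit false
set_option linter.unusedSectionVars false

open scoped TensorProduct

namespace Pool.Agent.UEN

open WeierstrassCurve.Affine Polynomial WithZero GK UP
open UEG (Gen IsUn)
open FK4 (LineS Supp supp_iff)

variable {k : Type*} [Field k] [DecidableEq k] [CharZero k] {W W' : WeierstrassCurve.Affine k}
  {F : Type*} [Field F] [DecidableEq F] [Algebra k F] {X Y X' Y' : F} {P : W.Point} {P' : W'.Point}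
  {n₀ n₁ : ℕ} [NeZero n₀] [NeZero n₁] {hO : addOrderOf P = n₀} {hO' : addOrderOf P' = n₁}
  [Fintype (AddSubgroup.zmultiples P)] [DecidableEq (AddSubgroup.zmultiples P)]
  [Fintype (AddSubgroup.zmultiples P')] [DecidableEq (AddSubgroup.zmultiples P')]
  {hg : Gen W X Y} {hg' : Gen W' X' Y'} {σ : (ZMod n₁ → ℤ) → ZMod n₀ → ℤ} {f : F}

/-- a constant which is not 0 or 1 -/
lemma const_un (hg : Gen W X Y) {c : k} (h0 : c ≠ 0) (h1 : c ≠ 1) :
    IsUn (AddSubgroup.zmultiples P) X Y (algebraMap k F c) ∧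
      IsUn (AddSubgroup.zmultiples P) X Y (1 - algebraMap k F c) := by
  constructor
  · rw [← supp_iff]; exact FK4.supp_const h0
  · rw [← supp_iff, ← map_one (algebraMap k F), ← map_sub]
    exact FK4.supp_const (sub_ne_zero.mpr (Ne.symm h1))

/-- the quotients of lines of the second curve are solutions -/
theorem Lk.supp (h : Lk hO hO' hg hg' σ)
    (hs : ∀ D G : ZMod n₁ → ℤ, ∀ x, σ (fun y => D y - G y) x = σ D x - σ G x)
    (hf : LineS (AddSubgroup.zmultiples P') X' Y' f) :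
    Supp (AddSubgroup.zmultiples P) X Y f ∧ Supp (AddSubgroup.zmultiples P) X Y (1 - f) := by
  rw [supp_iff, supp_iff]
  rcases lineS_Q3 hO' hg' hf with ⟨c, rfl⟩ | ⟨S, p, q, r, hn, h7⟩
  · obtain ⟨u, u'⟩ := hf.supp
    rw [supp_iff] at u u'
    refine const_un hg ?_ ?_
    · rintro rfl; exact u.1 (map_zero _)
    · rintro rfl; exact u'.1 (by rw [map_one, sub_self])
  · have h8 := h.q3_up hs h7
    exact ⟨h8.p.1, h8.q.1⟩

/-- the solutions of the second kind are quotients of lines of the second curve -/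
theorem Lk.line (h : Lk hO hO' hg hg' σ)
    (hs : ∀ D G : ZMod n₁ → ℤ, ∀ x, σ (fun y => D y - G y) x = σ D x - σ G x)
    (h1 : ∀ S p q : ZMod n₁, ∑ x, (mz S p x - mz S q x) = 0)
    (h2 : ∀ S p q : ZMod n₁, ∑ x, (mz S p x - mz S q x) • x = 0)
    (hf : RG hO σ hg f) : LineS (AddSubgroup.zmultiples P') X' Y' f := by
  obtain ⟨S, p, q, r, hn, h3⟩ := hf
  exact pencil8_line hn (h.q3_down hs (h1 _ _ _) (h1 _ _ _) (h2 _ _ _) (h2 _ _ _) h3)

lemma mz6_sum : ∀ S p q : ZMod 6, ∑ x, (mz S p x - mz S q x) = 0 := by decide +kernel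

lemma mz6_sum' : ∀ S p q : ZMod 6, ∑ x, (mz S p x - mz S q x) • x = 0 := by decide +kernel

lemma mz4_sum : ∀ S p q : ZMod 4, ∑ x, (mz S p x - mz S q x) = 0 := by decide +kernel

lemma mz4_sum' : ∀ S p q : ZMod 4, ∑ x, (mz S p x - mz S q x) • x = 0 := by decide +kernel

end Pool.Agent.UEN
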