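import Pool.Agent.Lib_helper24.FAM.DefsT

/-!
# The opposite of the generic point
-/

set_option autoImplicit false
set_option linter.unusedSectionVars false

open scoped TensorProduct

namespace Pool.Agent.UEN

open WeierstrassCurve.Affine
open FK4 (LineS Supp Thr Reg)

variable {k : Type*} [Field k] [DecidableEq k] {W : WeierstrassCurve.Affine k}
  {F : Type*} [Field F] [Algebra k F] {X Y Y' : F} {H : AddSubgroup W.Point}

lemma reg_neg (e : Y' = -Y - algebraMap k F W.a₁ * X - algebraMap k F W.a₃) :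
    Reg H X Y' ≤ Reg H X Y := by
  unfold Reg
  rw [Algebra.adjoin_le_iff]
  set R := Algebra.adjoin k ({X, Y} ∪ {z | ∃ (a b : k) (h : W.Nonsingular a b),
    Point.some a b h ∈ H ∧ z = (X - algebraMap k F a)⁻¹}) with hR
  have hX : X ∈ R := Algebra.subset_adjoin (Or.inl (Or.inl rfl))
  have hY : Y ∈ R := Algebra.subset_adjoin (Or.inl (Or.inr rfl))
  rintro z ((rfl | rfl) | hz)
  · exact hX
  · rw [e]
    exact sub_mem (sub_mem (neg_mem hY) (mul_mem (R.algebraMap_mem _) hX)) (R.algebraMap_mem _)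
  · exact Algebra.subset_adjoin (Or.inr hz)

lemma supp_neg (e : Y' = -Y - algebraMap k F W.a₁ * X - algebraMap k F W.a₃) {f : F}
    (h : Supp H X Y' f) : Supp H X Y f := ⟨h.1, reg_neg e h.2.1, reg_neg e h.2.2⟩

lemma thr_neg (e : Y' = -Y - algebraMap k F W.a₁ * X - algebraMap k F W.a₃) :
    ∀ {S : W.Point} {l : F}, Thr X Y' S l → Thr X Y (-S) l
  | 0, l, h => h
  | .some p q h', l, ⟨b, c, h⟩ => by
    rw [Point.neg_some]
    refine ⟨b - c * W.a₁, -c, ?_⟩
    rw [h, e]
    simp only [WeierstrassCurve.Affine.negY, map_sub, map_mul, map_neg]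
    ring

/-- quotients of lines and the opposite point -/
theorem lineS_neg (e : Y' = -Y - algebraMap k F W.a₁ * X - algebraMap k F W.a₃) {f : F}
    (h : LineS H X Y' f) : LineS H X Y f := by
  obtain ⟨S, l, m, h1, h2, h3, h4, h5, h6⟩ := h
  exact ⟨-S, l, m, thr_neg e h1, thr_neg e h2, supp_neg e h3, supp_neg e h4, supp_neg e h5, h6⟩

end Pool.Agent.UEN
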