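import Pool.Agent.Lib_helper76.UEN.C

/-!
# The unit equation on the multiples of a point of finite order, from the combinatorial statement
-/

set_option autoImplicit false
set_option linter.unusedSectionVars false

open scoped TensorProduct

namespace Pool.Agent.UEN

open WeierstrassCurve.Affine Polynomial WithZero GK UP
open UEG (Gen IsUn)
open MK4 (FT lg)
open FK4 (LineS)

variable {n₀ : ℕ}

/-- the three divisors are multiples of three members of a pencil -/
def Pen (D E G : ZMod n₀ → ℤ) : Prop :=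
  ∃ (S p q r : ZMod n₀) (n : ℤ), 0 < n ∧ (∀ x, D x = n * mz S p x) ∧ (∀ x, E x = n * mz S r x) ∧
    (∀ x, G x = n * mz S q x)

variable [NeZero n₀]

/-- the combinatorial statement: besides the pencils only the translates of the exceptional
triples `Ex` in one of the six orders -/
def Main (Ex : (ZMod n₀ → ℤ) → (ZMod n₀ → ℤ) → (ZMod n₀ → ℤ) → Prop) : Prop :=
  ∀ {D E G : ZMod n₀ → ℤ} {d : ℤ}, Tr D E G d →
  d ≤ ∑ x, (if D x ≠ 0 then 1 else 0) + ∑ x, (if E x ≠ 0 then 1 else 0) +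
    ∑ x, (if G x ≠ 0 then 1 else 0) → ∑ x, (D x - G x) • x = 0 → ∑ x, (E x - G x) • x = 0 →
  Pen D E G ∨ ∃ s : ZMod n₀, Six (fun A B C => Ex (fun x => A (x + s)) (fun x => B (x + s))
    (fun x => C (x + s))) D E G

variable {k : Type*} [Field k] [DecidableEq k] [CharZero k] {W : WeierstrassCurve.Affine k}
  {F : Type*} [Field F] [DecidableEq F] [Algebra k F] {X Y X' Y' : F} {P : W.Point}
  {hO : addOrderOf P = n₀}
  [Fintype (AddSubgroup.zmultiples P)] [DecidableEq (AddSubgroup.zmultiples P)]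
  {hg : Gen W X Y} {f : F} {D E G : ZMod n₀ → ℤ}
  {Ex : (ZMod n₀ → ℤ) → (ZMod n₀ → ℤ) → (ZMod n₀ → ℤ) → Prop}

/-- the exceptional triples, after a translation -/
theorem ex_shift {R : F → Prop} (hs : ∀ f, R (1 - f) → R f) (hi : ∀ f, R f⁻¹ → R f)
    (h : Q3 hO hg f D E G) {s : ZMod n₀}
    (ho : Six (fun A B C => Ex (fun x => A (x + s)) (fun x => B (x + s)) (fun x => C (x + s)))
      D E G) :
    ∃ (f' X' Y' : F) (hg' : Gen W X' Y') (A B C : ZMod n₀ → ℤ),
      gp hg' = gp hg + pp F (AddSubgroup.zmultiples P) (en hO (-s)) ∧ Ex A B C ∧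
      Q3 hO hg' f' A B C ∧ (R f' → R f) := by
  obtain ⟨f', A, B, C, hE, h', hR⟩ := h.six hs hi ho
  obtain ⟨X', Y', hg', e'⟩ := gen_add hg (((en hO (-s) : AddSubgroup.zmultiples P)) : W.Point)
  have e : gp hg' = gp hg + pp F (AddSubgroup.zmultiples P) (en hO (-s)) := e'
  refine ⟨f', X', Y', hg', _, _, _, e, hE, ?_, hR⟩
  have := h'.tr e
  simpa only [sub_neg_eq_add] using this

/-- no exceptional triples exist: only the quotients of lines -/
theorem unit_plain (hO : addOrderOf P = n₀) (hM : Main Ex)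
    (hG : IndG (AddSubgroup.zmultiples P) F) (hg : Gen W X Y)
    (hno : ∀ {X' Y' : F} (hg' : Gen W X' Y') {f' : F} {A B C : ZMod n₀ → ℤ}, Ex A B C →
      ¬ Q3 hO hg' f' A B C)
    (hf : IsUn (AddSubgroup.zmultiples P) X Y f)
    (hf' : IsUn (AddSubgroup.zmultiples P) X Y (1 - f)) :
    (∃ c : k, f = algebraMap k F c) ∨ LineS (AddSubgroup.zmultiples P) X Y f := by
  rcases exists_Q3 (hO := hO) hG hg hf hf' with h | ⟨D, E, G, d, hT, h, h1, h2, h3⟩
  · exact Or.inl h
  right
  rcases hM hT h1 h2 h3 with ⟨S, p, q, r, n, hn, a1, a2, a3⟩ | ⟨s, hs⟩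
  · exact pencilN hT h hn a1 a2 a3
  · obtain ⟨f', X', Y', hg', A, B, C, e, h4, h5, h6⟩ := ex_shift (R := fun _ => True)
      (fun _ _ => trivial) (fun _ _ => trivial) h hs
    exact (hno hg' h4 h5).elim

end Pool.Agent.UEN
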