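import Pool.Agent.Lib_helper76.UEN.Ex

/-!
# Multiples of a point, and linear independence of the monomials
-/

set_option autoImplicit false
set_option linter.unusedSectionVars false

namespace Pool.Agent.UEN

open WeierstrassCurve.Affine Polynomial
open UEG (Gen IsUn LineOK P0 negY_wt)
open TN (Wt)

section

variable {k : Type*} [Field k] [DecidableEq k] {b c : k} {P : (Wt b c).Point} {n₀ : ℕ} [NeZero n₀]

/-- the opposite point -/
lemma neg_mul (hO : addOrderOf P = n₀) {i : ZMod n₀} {a a' : k}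
    (h : ∃ h, i.val • P = .some a a' h) :
    ∃ h, (-i).val • P = .some a (-a' - (1 - c) * a + b) h := by
  obtain ⟨h, e⟩ := h
  have e1 : (-i).val • P = -(i.val • P) := by
    rw [← en_val hO, ← en_val hO, map_neg]; rfl
  rw [e, Point.neg_some] at e1
  have h' := (nonsingular_neg (W' := Wt b c) (x := a) (y := a')).mpr h
  refine ⟨by rw [← negY_wt]; exact h', ?_⟩
  rw [e1]
  simp only [Point.some.injEq, true_and]
  exact negY_wt _ _

end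

section ind

variable {k : Type*} [Field k] {b c : k} {F : Type*} [Field F] [Algebra k F] {x y : F}
  (h : Gen (Wt b c) x y)

include h in
/-- linear independence of the monomials with a pole of order at most nine -/
lemma ind9 {n₀ n₁ n₂ n₃ n₄ n₅ n₆ n₇ n₈ : k} (h0 : algebraMap k F n₀ + algebraMap k F n₁ * x +
    algebraMap k F n₂ * y + algebraMap k F n₃ * x ^ 2 + algebraMap k F n₄ * (x * y) +
    algebraMap k F n₅ * x ^ 3 + algebraMap k F n₆ * (x ^ 2 * y) + algebraMap k F n₇ * x ^ 4 +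
    algebraMap k F n₈ * (x ^ 3 * y) = 0) :
    n₀ = 0 ∧ n₁ = 0 ∧ n₂ = 0 ∧ n₃ = 0 ∧ n₄ = 0 ∧ n₅ = 0 ∧ n₆ = 0 ∧ n₇ = 0 ∧ n₈ = 0 := by
  obtain ⟨hp, hq⟩ := Gen.ind h (p := C n₀ + C n₁ * X + C n₃ * X ^ 2 + C n₅ * X ^ 3 + C n₇ * X ^ 4)
    (q := C n₂ + C n₄ * X + C n₆ * X ^ 2 + C n₈ * X ^ 3) (by
      simp only [eval₂_add, eval₂_mul, eval₂_C, eval₂_X, eval₂_pow]
      linear_combination h0)
  have cp := fun i => congrArg (fun r => coeff r i) hp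
  have cq := fun i => congrArg (fun r => coeff r i) hq
  have p0 := cp 0
  have p1 := cp 1
  have p2 := cp 2
  have p3 := cp 3
  have p4 := cp 4
  have q0 := cq 0
  have q1 := cq 1
  have q2 := cq 2
  have q3 := cq 3
  simp [coeff_C, coeff_X, coeff_X_pow] at p0 p1 p2 p3 p4 q0 q1 q2 q3
  exact ⟨p0, p1, q0, p2, q1, p3, q2, p4, q3⟩

end ind

/-- the coefficients of a relation between products of three lines -/
lemma tri {F : Type*} [Field F] {x y B C s₁ s₂ s₃ e₁ e₂ e₃ : F}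
    (he : y ^ 2 + (1 - C) * x * y - B * y = x ^ 3 - B * x ^ 2) :
    (y - (s₁ * x + e₁)) * (y - (s₂ * x + e₂)) * (y - (s₃ * x + e₃)) =
    -(e₁ * e₂ * e₃) - (s₁ * e₂ * e₃ + s₂ * e₁ * e₃ + s₃ * e₁ * e₂) * x +
    ((e₁ * e₂ + e₁ * e₃ + e₂ * e₃) + (B - (e₁ + e₂ + e₃)) * B) * y +
    (-(s₁ * s₂ * e₃ + s₁ * s₃ * e₂ + s₂ * s₃ * e₁) - (B - (e₁ + e₂ + e₃)) * B) * x ^ 2 +
    ((s₁ * (e₂ + e₃) + s₂ * (e₁ + e₃) + s₃ * (e₁ + e₂)) + (B - (e₁ + e₂ + e₃)) * (-(1 - C)) +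
      (-(1 - C) - (s₁ + s₂ + s₃)) * B) * (x * y) +
    (-(s₁ * s₂ * s₃) + (B - (e₁ + e₂ + e₃)) - (-(1 - C) - (s₁ + s₂ + s₃)) * B) * x ^ 3 +
    ((s₁ * s₂ + s₁ * s₃ + s₂ * s₃) - B + (-(1 - C) - (s₁ + s₂ + s₃)) * (-(1 - C))) * (x ^ 2 * y) +
    (-(1 - C) - (s₁ + s₂ + s₃)) * x ^ 4 + x ^ 3 * y := by
  linear_combination (y + (-(1 - C) - (s₁ + s₂ + s₃)) * x + (B - (e₁ + e₂ + e₃))) * he

/-- a product of two lines -/
lemma duo {F : Type*} [Field F] {x y B C s₁ s₂ e₁ e₂ : F}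
    (he : y ^ 2 + (1 - C) * x * y - B * y = x ^ 3 - B * x ^ 2) :
    (y - (s₁ * x + e₁)) * (y - (s₂ * x + e₂)) =
    e₁ * e₂ + (s₁ * e₂ + s₂ * e₁) * x + (B - (e₁ + e₂)) * y + (s₁ * s₂ - B) * x ^ 2 +
    (-(1 - C) - (s₁ + s₂)) * (x * y) + x ^ 3 := by
  linear_combination he

end Pool.Agent.UEN
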