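import Pool.Agent.Lib_helper76.UEN.C
import Pool.Agent.Lib_helper40.GK.GE10

/-!
# The divisors of the quotients of lines
-/

set_option autoImplicit false
set_option linter.unusedSectionVars false

open scoped TensorProduct

namespace Pool.Agent.UEN

open WeierstrassCurve.Affine Polynomial WithZero GK UP
open UEG (Gen IsUn)
open MK4 (FT lg)
open FK4 (LineS Supp supp_iff)

section general

variable {k : Type*} [Field k] [DecidableEq k] [CharZero k] {W : WeierstrassCurve.Affine k}
  {F : Type*} [Field F] [DecidableEq F] [Algebra k F] {X Y : F} {H : AddSubgroup W.Point}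
  [Fintype H] [DecidableEq H]

/-- the points are different -/
lemma nd_of (hg : Gen W X Y) {S p q r : H} (h0 : lamH H hg S p q r ≠ 0)
    (h1 : 1 - lamH H hg S p q r ≠ 0) : Nd S p q r := by
  have h := sysH H hg
  have e : lamH H hg S p q r = lamD (DD (pp F H) (gp hg)) S p q r := rfl
  rw [e] at h0 h1
  set D := DD (pp F H) (gp hg) with hD
  have a1 := h.zne S q
  have b1 : D S (some q) (some r) ≠ 0 := by
    intro h'
    apply h0
    unfold lamD
    rw [h', mul_zero, zero_div]
  have b2 : D S (some p) (some r) ≠ 0 := by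
    intro h'
    apply h0
    unfold lamD
    rw [h', mul_zero, div_zero]
  have b3 : D S (some p) (some q) ≠ 0 := by
    intro h'
    apply h1
    have pl := (h.nD S).pl none (some p) (some q) (some r)
    unfold lamD
    rw [one_sub_div (mul_ne_zero a1 b2), div_eq_zero_iff]
    left
    rw [h'] at pl
    linear_combination -pl
  refine ⟨?_, ?_, ?_, ?_, ?_, ?_⟩
  · exact fun e => b3 ((h.zero S p q).mpr (Or.inl e))
  · exact fun e => b3 ((h.zero S p q).mpr (Or.inr e))
  · exact fun e => b1 ((h.zero S q r).mpr (Or.inl e))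
  · exact fun e => b1 ((h.zero S q r).mpr (Or.inr e))
  · exact fun e => b2 ((h.zero S p r).mpr (Or.inl e))
  · exact fun e => b2 ((h.zero S p r).mpr (Or.inr e))

/-- comparison of divisors -/
lemma mz_of {lc : W.FunctionField → k} (hg : Gen W X Y) {f : F} {m : H → ℤ} {κ : FT F}
    {w : W.FunctionField} (h : PU H lc hg f m κ w) {S p q : H}
    (hl : ∃ κ' ∈ TN.V0 k F, lg f = th (pp F H) (gp hg) p + th (pp F H) (gp hg) (S - p) -
      th (pp F H) (gp hg) q - th (pp F H) (gp hg) (S - q) - κ') (a : H) :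
    m a = mz S p a - mz S q a := by
  obtain ⟨κ', hκ, hl⟩ := hl
  have e0 : ∑ a, (m a : ℚ) • th (pp F H) (gp hg) a =
      ∑ a, (m a : ℚ) • gg (pp F H) (gp hg - pp F H a) := by
    have : ∀ a, (m a : ℚ) • th (pp F H) (gp hg) a =
        (m a : ℚ) • gg (pp F H) (gp hg - pp F H a) - (m a : ℚ) • mg (pp F H) := by
      intro a
      unfold th
      rw [smul_sub]
    rw [Finset.sum_congr rfl fun a _ => this a, Finset.sum_sub_distrib, ← Finset.sum_smul]
    have hs : ∑ a, (m a : ℚ) = 0 := by exact_mod_cast h.s0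
    rw [hs, zero_smul, sub_zero]
  have e1 : ∑ a, ((m a : ℚ) - ((mz S p a : ℚ) - (mz S q a : ℚ))) • th (pp F H) (gp hg) a =
      -κ - κ' := by
    have : ∀ a, ((m a : ℚ) - ((mz S p a : ℚ) - (mz S q a : ℚ))) • th (pp F H) (gp hg) a =
        (m a : ℚ) • th (pp F H) (gp hg) a - ((mz S p a : ℚ) • th (pp F H) (gp hg) a -
          (mz S q a : ℚ) • th (pp F H) (gp hg) a) := by
      intro a
      rw [sub_smul, sub_smul]
    rw [Finset.sum_congr rfl fun a _ => this a, Finset.sum_sub_distrib, Finset.sum_sub_distrib,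
      sum_mz_smul, sum_mz_smul, e0]
    have e2 := h.lg
    rw [hl] at e2
    have e3 : ∑ a, (m a : ℚ) • gg (pp F H) (gp hg - pp F H a) =
      th (pp F H) (gp hg) p + th (pp F H) (gp hg) (S - p) -
      th (pp F H) (gp hg) q - th (pp F H) (gp hg) (S - q) - κ' - κ := by
      rw [e2]; abel
    rw [e3]
    abel
  have e2 := th_indep H hg (indTh hg) (fun a => (m a : ℚ) - ((mz S p a : ℚ) - (mz S q a : ℚ)))
    (by
      rw [e1]
      exact Submodule.sub_mem _ (Submodule.neg_mem _ h.κV) hκ)
    (by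
      rw [Finset.sum_sub_distrib, Finset.sum_sub_distrib]
      have h1 : ∑ a, (m a : ℚ) = 0 := by exact_mod_cast h.s0
      have h2 : ∀ x : H, ∑ a, (mz S x a : ℚ) = 2 := fun x => by exact_mod_cast sum_mz S x
      rw [h1, h2, h2]
      norm_num)
  have e3 := congrFun e2 a
  simp only [Pi.zero_apply] at e3
  have e4 : ((m a : ℤ) : ℚ) = ((mz S p a - mz S q a : ℤ) : ℚ) := by
    push_cast
    linear_combination e3
  exact_mod_cast e4

end general

section zmod

variable {k : Type*} [Field k] [DecidableEq k] [CharZero k] {W : WeierstrassCurve.Affine k}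
  {F : Type*} [Field F] [DecidableEq F] [Algebra k F] {X Y : F} {P : W.Point} {n₀ : ℕ} [NeZero n₀]
  (hO : addOrderOf P = n₀)
  [Fintype (AddSubgroup.zmultiples P)] [DecidableEq (AddSubgroup.zmultiples P)]

/-- **the divisors of a quotient of lines** -/
theorem lineS_Q3 (hg : Gen W X Y) {f : F} (hf : LineS (AddSubgroup.zmultiples P) X Y f) :
    (∃ c : k, f = algebraMap k F c) ∨ ∃ S p q r : ZMod n₀, Nd S p q r ∧
      Q3 hO hg f (mz S p) (mz S r) (mz S q) := by
  rcases lineS_lam hg hf with h | ⟨S, p, q, r, e⟩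
  · exact Or.inl h
  right
  have u := supp_iff.mp hf.supp.1
  have u' := supp_iff.mp hf.supp.2
  have : CharZero F := charZero_of_injective_algebraMap (algebraMap k F).injective
  have hn : Nd S p q r := by
    apply nd_of hg
    · rw [← e]; exact u.1
    · rw [← e]; exact u'.1
  obtain ⟨m, κ, w, h⟩ := exists_PU lc_ok hg u
  obtain ⟨m', κ', w', h'⟩ := exists_PU lc_ok hg u'
  have hF := (sysH (AddSubgroup.zmultiples P) hg).fam
  have hGV : ∀ a, GG (pp F (AddSubgroup.zmultiples P)) a ∈ TN.V0 k F := hF.GV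
  have hl0 : ∃ κ' ∈ TN.V0 k F, lg f = th (pp F (AddSubgroup.zmultiples P)) (gp hg) p +
      th (pp F (AddSubgroup.zmultiples P)) (gp hg) (S - p) -
      th (pp F (AddSubgroup.zmultiples P)) (gp hg) q -
      th (pp F (AddSubgroup.zmultiples P)) (gp hg) (S - q) - κ' := by
    have h0 := hF.lg0 S p q r hn
    refine ⟨_, ?_, by rw [e]; exact h0⟩
    exact Submodule.sub_mem _ (Submodule.sub_mem _ (Submodule.add_mem _ (hGV _) (hGV _)) (hGV _))
      (hGV _)
  have hl1 : ∃ κ' ∈ TN.V0 k F, lg (1 - f) = th (pp F (AddSubgroup.zmultiples P)) (gp hg) r +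
      th (pp F (AddSubgroup.zmultiples P)) (gp hg) (S - r) -
      th (pp F (AddSubgroup.zmultiples P)) (gp hg) q -
      th (pp F (AddSubgroup.zmultiples P)) (gp hg) (S - q) - κ' := by
    have h0 := hF.lg1 S p q r hn
    refine ⟨_, ?_, by rw [e]; exact h0⟩
    exact Submodule.sub_mem _ (Submodule.sub_mem _ (Submodule.add_mem _ (hGV _) (hGV _)) (hGV _))
      (hGV _)
  have hm := mz_of hg h hl0
  have hm' := mz_of hg h' hl1
  have hmz : ∀ (S p : AddSubgroup.zmultiples P) (x : ZMod n₀),
      mz ((en hO).symm S) ((en hO).symm p) x = mz S p (en hO x) := by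
    intro S p a
    unfold mz
    simp only [← map_sub, AddEquiv.eq_symm_apply]
  have inj : ∀ {a b : AddSubgroup.zmultiples P}, a ≠ b → (en hO).symm a ≠ (en hO).symm b :=
    fun h h' => h ((en hO).symm.injective h')
  refine ⟨(en hO).symm S, (en hO).symm p, (en hO).symm q, (en hO).symm r, ?_, ⟨⟨u, κ, w, ?_⟩,
    ⟨u', κ', w', ?_⟩⟩⟩
  · obtain ⟨n1, n2, n3, n4, n5, n6⟩ := hn
    unfold Nd
    simp only [← map_sub]
    exact ⟨inj n1, inj n2, inj n3, inj n4, inj n5, inj n6⟩
  · have : (fun a => mz ((en hO).symm S) ((en hO).symm p) ((en hO).symm a) -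
        mz ((en hO).symm S) ((en hO).symm q) ((en hO).symm a)) = m := by
      funext a
      rw [hmz, hmz, AddEquiv.apply_symm_apply, hm]
    show PU _ _ _ _ (fun a => mz ((en hO).symm S) ((en hO).symm p) ((en hO).symm a) -
        mz ((en hO).symm S) ((en hO).symm q) ((en hO).symm a)) _ _
    rw [this]; exact h
  · have : (fun a => mz ((en hO).symm S) ((en hO).symm r) ((en hO).symm a) -
        mz ((en hO).symm S) ((en hO).symm q) ((en hO).symm a)) = m' := by
      funext a
      rw [hmz, hmz, AddEquiv.apply_symm_apply, hm']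
    show PU _ _ _ _ (fun a => mz ((en hO).symm S) ((en hO).symm r) ((en hO).symm a) -
        mz ((en hO).symm S) ((en hO).symm q) ((en hO).symm a)) _ _
    rw [this]; exact h'

end zmod

end Pool.Agent.UEN
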