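import Pool.Agent.Lib_helper76.UE8.Sols

/-!
# Scaling of the generators in the solutions of a unit equation
-/

set_option autoImplicit false
set_option linter.unusedSectionVars false

namespace Pool.Agent.UEN

open Pool.Agent.KC72

variable {F : Type*} [Field F]

/-- `∑ kᵢ eᵢ` -/
def dot : List ℤ → List ℤ → ℤ
  | k :: ks, e :: es => k * e + dot ks es
  | _, _ => 0

/-- the scaled list -/
def scl (V : F) : List ℤ → List F → List F
  | k :: ks, z :: zs => z * V ^ k :: scl V ks zs
  | _, _ => []

lemma evl_scl {V : F} (hV : V ≠ 0) : ∀ {ks : List ℤ} {g : List F} {e : List ℤ},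
    ks.length = g.length → (∀ z ∈ g, z ≠ 0) → evl (scl V ks g) e = evl g e * V ^ dot ks e := by
  intro ks
  induction ks with
  | nil =>
    intro g e hl _
    cases g with
    | nil => simp [scl, dot]
    | cons _ _ => simp at hl
  | cons k ks ih =>
    intro g e hl hg
    cases g with
    | nil => simp at hl
    | cons z zs =>
      cases e with
      | nil => simp [dot]
      | cons n ns =>
        unfold scl dot
        rw [evl_cons, evl_cons, ih (by simpa using hl) (fun y hy => hg y (by simp [hy])),
          mul_zpow, ← zpow_mul, zpow_add₀ hV]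
        ring

/-- the entries of the scaled list -/
lemma scl_ne {V : F} : ∀ {ks : List ℤ} {g : List F}, ks.length = g.length →
    (∀ z ∈ scl V ks g, z ≠ 0) → ∀ z ∈ g, z ≠ 0 := by
  intro ks
  induction ks with
  | nil =>
    intro g hl _ z hz
    cases g with
    | nil => simp at hz
    | cons _ _ => simp at hl
  | cons k ks ih =>
    intro g hl h z hz
    cases g with
    | nil => simp at hz
    | cons a g =>
      unfold scl at h
      rcases List.mem_cons.mp hz with rfl | hz
      · have := h _ List.mem_cons_self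
        exact left_ne_zero_of_mul this
      · exact ih (by simpa using hl) (fun y hy => h y (List.mem_cons_of_mem _ hy)) z hz

/-- the last entry is changed by `c` -/
def addl : List ℤ → ℤ → List ℤ
  | [], _ => []
  | [a], c => [a + c]
  | a :: b :: l, c => a :: addl (b :: l) c

lemma evl_addl {q : F} (hq : q ≠ 0) : ∀ {g : List F} {e : List ℤ} {c : ℤ},
    e.length = g.length + 1 → evl (g ++ [q]) (addl e c) = evl (g ++ [q]) e * q ^ c := by
  intro g
  induction g with
  | nil =>
    intro e c hl
    match e, hl with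
    | [a], _ =>
      simp only [List.nil_append, addl, evl_cons, evl_nil_left, mul_one]
      rw [zpow_add₀ hq]
  | cons z zs ih =>
    intro e c hl
    match e, hl with
    | a :: b :: l, hl =>
      simp only [List.cons_append, addl, evl_cons]
      rw [ih (by simpa using hl)]
      ring

/-- the new exponents: `V = (-q)⁻¹`, `q` the last generator -/
def trM (ks : List ℤ) (c : Mo) : Mo :=
  (xor c.1 (decide (dot ks c.2 % 2 = 1)), addl c.2 (-dot ks c.2))

lemma neg_one_zpow_iff (n : ℤ) : (-1 : F) ^ n = bif decide (n % 2 = 1) then -1 else 1 := by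
  rcases Int.even_or_odd n with h | h
  · rw [h.neg_one_zpow]
    have : ¬ n % 2 = 1 := by have := Int.even_iff.mp h; omega
    simp [this]
  · rw [h.neg_one_zpow]
    have : n % 2 = 1 := Int.odd_iff.mp h
    simp [this]

lemma ev_scl {q : F} (hq : q ≠ 0) {ks : List ℤ} {g : List F} {c : Mo}
    (hk : ks.length = g.length + 1) (hc : c.2.length = g.length + 1)
    (hg : ∀ z ∈ g ++ [q], z ≠ 0) :
    ev (scl (-q)⁻¹ ks (g ++ [q])) c = ev (g ++ [q]) (trM ks c) := by
  have hV : (-q)⁻¹ ≠ 0 := inv_ne_zero (neg_ne_zero.mpr hq)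
  unfold ev
  rw [evl_scl hV (by simpa using hk) hg]
  show _ = (bif xor c.1 (decide (dot ks c.2 % 2 = 1)) then -1 else 1) *
    evl (g ++ [q]) (addl c.2 (-dot ks c.2))
  rw [evl_addl hq hc]
  have e1 : (-q)⁻¹ = -1 * q⁻¹ := by rw [inv_neg]; ring
  have e2 : (-q)⁻¹ ^ dot ks c.2 =
      (bif decide (dot ks c.2 % 2 = 1) then (-1 : F) else 1) * q ^ (-dot ks c.2) := by
    rw [e1, mul_zpow, neg_one_zpow_iff, zpow_neg, inv_zpow]
  rw [e2]
  cases c.1 <;> cases decide (dot ks c.2 % 2 = 1) <;> simp

/-- the solutions, after scaling -/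
theorem sols_scl {q : F} (hq : q ≠ 0) {ks : List ℤ} {g : List F} {cls cls' : List (Mo × Mo)}
    (hk : ks.length = g.length + 1)
    (hc : ∀ c ∈ cls, c.1.2.length = g.length + 1 ∧ c.2.2.length = g.length + 1)
    (hg : ∀ z ∈ g ++ [q], z ≠ 0) (hcls : cls.map (fun c => (trM ks c.1, trM ks c.2)) = cls')
    (h : Sols (g ++ [q]) cls') : Sols (scl (-q)⁻¹ ks (g ++ [q])) cls := by
  intro c hc'
  obtain ⟨h1, h2⟩ := hc c hc'
  rw [ev_scl hq hk h1 hg, ev_scl hq hk h2 hg]
  exact h (trM ks c.1, trM ks c.2) (by rw [← hcls]; exact List.mem_map.mpr ⟨c, hc', rfl⟩)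

end Pool.Agent.UEN
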